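import Pool.Agent.W677.MarE

set_option autoImplicit false

/-! # Entropy production of a positive harmonic function against a harmonic function -/

namespace Pool.Agent.TH790.SF

open Complex Metric Set Filter Topology MeasureTheory
open Pool.Agent.W677.Mar

section

variable {c : ℝ} {K K1 K2 Q Q1 Q2 : ℂ → ℂ}

/-- continuity on the half plane in the two real variables -/
theorem cont2 {f : ℂ → ℂ} (hf : ContinuousOn f {ζ : ℂ | ζ.re < c}) :
    ContinuousOn (fun q : ℝ × ℝ => f (zt q.1 q.2)) (Iio c ×ˢ univ) := by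
  apply hf.comp zt_cont.continuousOn
  intro q hq
  show (zt q.1 q.2).re < c
  rw [zt_re]
  exact hq.1

/-- continuity in the angle -/
theorem cont1 {f : ℂ → ℂ} {s : ℝ} (hs : s < c) (hf : ContinuousOn f {ζ : ℂ | ζ.re < c}) :
    Continuous fun θ : ℝ => f (zt s θ) := by
  apply hf.comp_continuous (zt_cont.comp (continuous_const.prodMk continuous_id))
  intro θ
  show (zt s θ).re < c
  rw [zt_re]
  exact hs

/-- the integrand `N log N - u N` -/
noncomputable def ff (K Q : ℂ → ℂ) (s θ : ℝ) : ℝ :=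
  (Q (zt s θ)).re * Real.log (Q (zt s θ)).re - (K (zt s θ)).re * (Q (zt s θ)).re

/-- its derivative in `s` -/
noncomputable def ff1 (K K1 Q Q1 : ℂ → ℂ) (s θ : ℝ) : ℝ :=
  (Q1 (zt s θ)).re * (Real.log (Q (zt s θ)).re + 1) -
    ((K1 (zt s θ)).re * (Q (zt s θ)).re + (K (zt s θ)).re * (Q1 (zt s θ)).re)

/-- the Laplacian -/
noncomputable def lap (K1 Q Q1 : ℂ → ℂ) (s θ : ℝ) : ℝ :=
  ‖Q1 (zt s θ)‖ ^ 2 / (Q (zt s θ)).re -
    2 * ((K1 (zt s θ)).re * (Q1 (zt s θ)).re + (K1 (zt s θ)).im * (Q1 (zt s θ)).im)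

theorem lap_ge (K1 Q Q1 : ℂ → ℂ) (s θ : ℝ) (hp : 0 < (Q (zt s θ)).re) :
    -(‖K1 (zt s θ)‖ ^ 2 * (Q (zt s θ)).re) ≤ lap K1 Q Q1 s θ := by
  unfold lap
  obtain ⟨k, hk⟩ : ∃ k, k = K1 (zt s θ) := ⟨_, rfl⟩
  obtain ⟨q, hq⟩ : ∃ q, q = Q1 (zt s θ) := ⟨_, rfl⟩
  obtain ⟨N, hN⟩ : ∃ N, N = (Q (zt s θ)).re := ⟨_, rfl⟩
  rw [← hk, ← hq, ← hN]
  rw [← hN] at hp
  have e1 : ‖k‖ ^ 2 = k.re ^ 2 + k.im ^ 2 := by
    rw [← Complex.normSq_eq_norm_sq, Complex.normSq_apply]; ring
  have e2 : ‖q‖ ^ 2 = q.re ^ 2 + q.im ^ 2 := by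
    rw [← Complex.normSq_eq_norm_sq, Complex.normSq_apply]; ring
  rw [e1, e2]
  have h1 : 0 ≤ ((q.re - N * k.re) ^ 2 + (q.im - N * k.im) ^ 2) / N := by positivity
  have h2 : ((q.re - N * k.re) ^ 2 + (q.im - N * k.im) ^ 2) / N =
      (q.re ^ 2 + q.im ^ 2) / N - 2 * (k.re * q.re + k.im * q.im) + (k.re ^ 2 + k.im ^ 2) * N := by
    field_simp
    ring
  rw [h2] at h1
  linarith

variable (hK : KD c K K1 K2) (hQ : KD c Q Q1 Q2) (hp : ∀ ζ : ℂ, ζ.re < c → 0 < (Q ζ).re)

include hK hQ hp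

theorem d_s {s : ℝ} (hs : s < c) (θ : ℝ) : HasDerivAt (fun s => ff K Q s θ) (ff1 K K1 Q Q1 s θ) s := by
  have hz : (zt s θ).re < c := by rw [zt_re]; exact hs
  have a0 := re_d ((hK.d1 _ hz).comp s (zt_d1 s θ))
  have b0 := re_d ((hQ.d1 _ hz).comp s (zt_d1 s θ))
  rw [mul_one] at a0 b0
  have hN := hp _ hz
  have h1 := (b0.mul (b0.log hN.ne')).sub (a0.mul b0)
  refine h1.congr_deriv ?_
  simp only [ff1, Function.comp]
  field_simp

theorem ff_c : ContinuousOn (Function.uncurry (ff K Q)) (Iio c ×ˢ univ) := by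
  have k0 := continuous_re.comp_continuousOn (cont2 (c := c) (kcK hK))
  have q0 := continuous_re.comp_continuousOn (cont2 (c := c) (kcK hQ))
  have lq : ContinuousOn (fun q : ℝ × ℝ => Real.log (Q (zt q.1 q.2)).re) (Iio c ×ˢ univ) := by
    apply q0.log
    intro q hq
    apply (hp _ _).ne'
    rw [zt_re]
    exact hq.1
  exact (q0.mul lq).sub (k0.mul q0)

theorem ff1_c : ContinuousOn (Function.uncurry (ff1 K K1 Q Q1)) (Iio c ×ˢ univ) := by
  have k0 := continuous_re.comp_continuousOn (cont2 (c := c) (kcK hK))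
  have q0 := continuous_re.comp_continuousOn (cont2 (c := c) (kcK hQ))
  have k1 := continuous_re.comp_continuousOn (cont2 (c := c) (kcK1 hK))
  have q1 := continuous_re.comp_continuousOn (cont2 (c := c) (kcK1 hQ))
  have lq : ContinuousOn (fun q : ℝ × ℝ => Real.log (Q (zt q.1 q.2)).re) (Iio c ×ˢ univ) := by
    apply q0.log
    intro q hq
    apply (hp _ _).ne'
    rw [zt_re]
    exact hq.1
  exact (q1.mul (lq.add continuousOn_const)).sub ((k1.mul q0).add (k0.mul q1))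

/-- first derivative of the mean -/
theorem ent1 {s : ℝ} (hs : s < c) : HasDerivAt (fun s => ∫ θ in (0 : ℝ)..(2 * Real.pi), ff K Q s θ)
    (∫ θ in (0 : ℝ)..(2 * Real.pi), ff1 K K1 Q Q1 s θ) s :=
  hasDerivAt_int (U := Iio c) isOpen_Iio (ff_c hK hQ hp) (ff1_c hK hQ hp)
    (fun s hs θ => d_s hK hQ hp hs θ) hs 0 (2 * Real.pi)

/-- second derivative of the mean -/
theorem ent2 {s : ℝ} (hs : s < c) :
    HasDerivAt (fun s => ∫ θ in (0 : ℝ)..(2 * Real.pi), ff1 K K1 Q Q1 s θ)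
    (∫ θ in (0 : ℝ)..(2 * Real.pi), lap K1 Q Q1 s θ) s := by
  -- the second derivative in `s`
  set g : ℝ → ℝ → ℝ := fun s θ => (Q2 (zt s θ)).re * (Real.log (Q (zt s θ)).re + 1) +
    (Q1 (zt s θ)).re * ((Q1 (zt s θ)).re / (Q (zt s θ)).re) -
    (((K2 (zt s θ)).re * (Q (zt s θ)).re + (K1 (zt s θ)).re * (Q1 (zt s θ)).re) +
      ((K1 (zt s θ)).re * (Q1 (zt s θ)).re + (K (zt s θ)).re * (Q2 (zt s θ)).re)) with hg
  have k0 := continuous_re.comp_continuousOn (cont2 (c := c) (kcK hK))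
  have q0 := continuous_re.comp_continuousOn (cont2 (c := c) (kcK hQ))
  have k1 := continuous_re.comp_continuousOn (cont2 (c := c) (kcK1 hK))
  have q1 := continuous_re.comp_continuousOn (cont2 (c := c) (kcK1 hQ))
  have k2 := continuous_re.comp_continuousOn (cont2 (c := c) hK.c2)
  have q2 := continuous_re.comp_continuousOn (cont2 (c := c) hQ.c2)
  have hne : ∀ q ∈ Iio c ×ˢ (univ : Set ℝ), (Q (zt q.1 q.2)).re ≠ 0 := by
    intro q hq
    apply (hp _ _).ne'
    rw [zt_re]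
    exact hq.1
  have lq : ContinuousOn (fun q : ℝ × ℝ => Real.log (Q (zt q.1 q.2)).re) (Iio c ×ˢ univ) :=
    q0.log hne
  have hgc : ContinuousOn (Function.uncurry g) (Iio c ×ˢ univ) :=
    ((q2.mul (lq.add continuousOn_const)).add (q1.mul (q1.div q0 hne))).sub
      (((k2.mul q0).add (k1.mul q1)).add ((k1.mul q1).add (k0.mul q2)))
  have hraw := hasDerivAt_int (U := Iio c) isOpen_Iio (ff1_c hK hQ hp) hgc (by
      intro s hs θ
      have hz : (zt s θ).re < c := by rw [zt_re]; exact hs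
      have a0 := re_d ((hK.d1 _ hz).comp s (zt_d1 s θ))
      have b0 := re_d ((hQ.d1 _ hz).comp s (zt_d1 s θ))
      have a1 := re_d ((hK.d2 _ hz).comp s (zt_d1 s θ))
      have b1 := re_d ((hQ.d2 _ hz).comp s (zt_d1 s θ))
      rw [mul_one] at a0 b0 a1 b1
      exact (b1.fun_mul ((b0.log (hp _ hz).ne').add_const 1)).fun_sub
        ((a1.fun_mul b0).fun_add (a0.fun_mul b1))) (s₀ := s) hs 0 (2 * Real.pi)
  refine hraw.congr_deriv ?_
  have hz : ∀ θ, (zt s θ).re < c := fun θ => by rw [zt_re]; exact hs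
  have c0 := cont1 hs (kcK hK)
  have c1 := cont1 hs (kcK1 hK)
  have c2 := cont1 hs hK.c2
  have d0 := cont1 hs (kcK hQ)
  have d1 := cont1 hs (kcK1 hQ)
  have d2 := cont1 hs hQ.c2
  have hN : ∀ θ, 0 < (Q (zt s θ)).re := fun θ => hp _ (hz θ)
  have cl : Continuous fun θ : ℝ => Real.log (Q (zt s θ)).re :=
    (continuous_re.comp d0).log fun θ => (hN θ).ne'
  -- integration by parts: the derivative in the angle has mean zero
  set w : ℝ → ℝ := fun θ => (-(Q2 (zt s θ)).re) * (Real.log (Q (zt s θ)).re + 1) +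
    (-(Q1 (zt s θ)).im) * ((-(Q1 (zt s θ)).im) / (Q (zt s θ)).re) -
    ((-(K2 (zt s θ)).re * (Q (zt s θ)).re + (-(K1 (zt s θ)).im) * (-(Q1 (zt s θ)).im)) +
      ((-(K1 (zt s θ)).im) * (-(Q1 (zt s θ)).im) + (K (zt s θ)).re * (-(Q2 (zt s θ)).re))) with hw
  have hwc : Continuous w := by
    have e1 := continuous_re.comp c0
    have e2 := continuous_im.comp c1
    have e3 := continuous_re.comp c2
    have e4 := continuous_re.comp d0
    have e5 := continuous_im.comp d1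
    have e6 := continuous_re.comp d2
    exact ((e6.neg.mul (cl.add continuous_const)).add
      (e5.neg.mul (e5.neg.div e4 fun θ => (hN θ).ne'))).sub
      (((e3.neg.mul e4).add (e2.neg.mul e5.neg)).add ((e2.neg.mul e5.neg).add (e1.mul e6.neg)))
  have hibp : ∫ θ in (0 : ℝ)..(2 * Real.pi), w θ = 0 := by
    have hd : ∀ θ : ℝ, HasDerivAt (fun θ => (-(Q1 (zt s θ)).im) * (Real.log (Q (zt s θ)).re + 1) -
        ((-(K1 (zt s θ)).im) * (Q (zt s θ)).re + (K (zt s θ)).re * (-(Q1 (zt s θ)).im))) (w θ) θ := by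
      intro θ
      have a0 := re_d ((hK.d1 _ (hz θ)).comp θ (zt_d2 s θ))
      have b0 := re_d ((hQ.d1 _ (hz θ)).comp θ (zt_d2 s θ))
      have a1 := im_d ((hK.d2 _ (hz θ)).comp θ (zt_d2 s θ))
      have b1 := im_d ((hQ.d2 _ (hz θ)).comp θ (zt_d2 s θ))
      have a3 := (b1.fun_neg.fun_mul ((b0.log (hN θ).ne').add_const 1)).fun_sub
        ((a1.fun_neg.fun_mul b0).fun_add (a0.fun_mul b1.fun_neg))
      refine a3.congr_deriv ?_
      simp only [hw, Function.comp, mul_re, mul_im, I_re, I_im, mul_zero, mul_one, zero_sub, add_zero,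
        zero_add]
    rw [intervalIntegral.integral_eq_sub_of_hasDerivAt (fun θ _ => hd θ)]
    · have p1 : zt s (2 * Real.pi) = zt s 0 + 2 * Real.pi * I := by
        have := zt_per s 0
        rwa [zero_add] at this
      rw [p1, hK.p0, hK.p1, hQ.p0, hQ.p1, sub_self]
    · exact hwc.intervalIntegrable _ _
  have cg : Continuous fun θ => g s θ := by
    have e1 := continuous_re.comp c0
    have e2 := continuous_re.comp c1
    have e3 := continuous_re.comp c2
    have e4 := continuous_re.comp d0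
    have e5 := continuous_re.comp d1
    have e6 := continuous_re.comp d2
    exact ((e6.mul (cl.add continuous_const)).add
      (e5.mul (e5.div e4 fun θ => (hN θ).ne'))).sub
      (((e3.mul e4).add (e2.mul e5)).add ((e2.mul e5).add (e1.mul e6)))
  have h1 : ∫ θ in (0 : ℝ)..(2 * Real.pi), g s θ =
      ∫ θ in (0 : ℝ)..(2 * Real.pi), (g s θ + w θ) := by
    rw [intervalIntegral.integral_add (cg.intervalIntegrable _ _) (hwc.intervalIntegrable _ _), hibp,
      add_zero]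
  rw [h1]
  refine intervalIntegral.integral_congr fun θ _ => ?_
  simp only [hg, hw, lap]
  have e2 : ‖Q1 (zt s θ)‖ ^ 2 = (Q1 (zt s θ)).re ^ 2 + (Q1 (zt s θ)).im ^ 2 := by
    rw [← Complex.normSq_eq_norm_sq, Complex.normSq_apply]; ring
  rw [e2]
  have := (hN θ).ne'
  field_simp
  ring

/-- the second derivative is bounded from below -/
theorem ent3 {s : ℝ} (hs : s < c) :
    -(∫ θ in (0 : ℝ)..(2 * Real.pi), ‖K1 (zt s θ)‖ ^ 2 * (Q (zt s θ)).re) ≤
      ∫ θ in (0 : ℝ)..(2 * Real.pi), lap K1 Q Q1 s θ := by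
  have hz : ∀ θ, (zt s θ).re < c := fun θ => by rw [zt_re]; exact hs
  have c1 := cont1 hs (kcK1 hK)
  have d0 := cont1 hs (kcK hQ)
  have d1 := cont1 hs (kcK1 hQ)
  rw [← intervalIntegral.integral_neg]
  apply intervalIntegral.integral_mono_on (by have := Real.pi_pos; positivity)
  · exact ((c1.norm.pow 2).mul (continuous_re.comp d0)).neg.intervalIntegrable _ _
  · apply Continuous.intervalIntegrable
    unfold lap
    exact ((d1.norm.pow 2).div (continuous_re.comp d0) fun θ => (hp _ (hz θ)).ne').sub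
      (continuous_const.mul (((continuous_re.comp c1).mul (continuous_re.comp d1)).add
        ((continuous_im.comp c1).mul (continuous_im.comp d1))))
  · intro θ _
    exact lap_ge K1 Q Q1 s θ (hp _ (hz θ))

end

end Pool.Agent.TH790.SF
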