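import Pool.Agent.TH790.SF.A

set_option autoImplicit false

/-! # The entropy inequality for functions holomorphic on a neighbourhood of the closed disc -/

namespace Pool.Agent.TH790.SF

open Complex Metric Set Filter Topology MeasureTheory
open Pool.Agent.W677.Mar

section

variable {c : ℝ} {K K1 K2 Q Q1 Q2 : ℂ → ℂ}

/-- the dissipation on a circle, as a function which is continuous on the whole line -/
noncomputable def Bt (K1 Q : ℂ → ℂ) (s : ℝ) : ℝ :=
  ∫ θ in (0 : ℝ)..(2 * Real.pi), ‖K1 (zt (min s 0) θ)‖ ^ 2 * (Q (zt (min s 0) θ)).re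

variable (hc : 0 < c) (hK : KD c K K1 K2) (hQ : KD c Q Q1 Q2)
  (hp : ∀ ζ : ℂ, ζ.re < c → 0 < (Q ζ).re)

include hc hK hQ in
theorem Bt_cont : Continuous (Bt K1 Q) := by
  have hmap : ∀ q : ℝ × ℝ, (min q.1 0, q.2) ∈ Iio c ×ˢ (univ : Set ℝ) := fun q =>
    ⟨(min_le_right _ _).trans_lt hc, mem_univ _⟩
  have hm : Continuous fun q : ℝ × ℝ => (min q.1 0, q.2) :=
    (continuous_fst.min continuous_const).prodMk continuous_snd
  have h1 := (cont2 (kcK1 hK)).comp_continuous hm hmap
  have h2 := (cont2 (kcK hQ)).comp_continuous hm hmap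
  unfold Bt
  exact intervalIntegral.continuous_parametric_intervalIntegral_of_continuous'
    ((h1.norm.pow 2).mul (continuous_re.comp h2)) 0 (2 * Real.pi)

theorem Bt_eq {s : ℝ} (hs : s ≤ 0) :
    Bt K1 Q s = ∫ θ in (0 : ℝ)..(2 * Real.pi), ‖K1 (zt s θ)‖ ^ 2 * (Q (zt s θ)).re := by
  unfold Bt
  rw [min_eq_left hs]

include hc hK hQ hp in
/-- the one-dimensional comparison -/
theorem mono {a : ℝ} (ha : a ≤ 0) :
    (∫ θ in (0 : ℝ)..(2 * Real.pi), ff K Q a θ) - a * (∫ θ in (0 : ℝ)..(2 * Real.pi), ff1 K K1 Q Q1 a θ) -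
      ∫ s in a..0, (-s) * Bt K1 Q s ≤ ∫ θ in (0 : ℝ)..(2 * Real.pi), ff K Q 0 θ := by
  have hcont : Continuous fun s => (-s) * Bt K1 Q s := continuous_neg.mul (Bt_cont hc hK hQ)
  set Φ : ℝ → ℝ := fun s => (∫ θ in (0 : ℝ)..(2 * Real.pi), ff K Q s θ) -
    s * (∫ θ in (0 : ℝ)..(2 * Real.pi), ff1 K K1 Q Q1 s θ) + ∫ σ in a..s, (-σ) * Bt K1 Q σ with hΦ
  have hd : ∀ s ∈ Icc a 0, HasDerivAt Φ ((∫ θ in (0 : ℝ)..(2 * Real.pi), ff1 K K1 Q Q1 s θ) -
      (1 * (∫ θ in (0 : ℝ)..(2 * Real.pi), ff1 K K1 Q Q1 s θ) +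
        s * (∫ θ in (0 : ℝ)..(2 * Real.pi), lap K1 Q Q1 s θ)) + (-s) * Bt K1 Q s) s := by
    intro s hs
    have hsc : s < c := hs.2.trans_lt hc
    exact ((ent1 hK hQ hp hsc).sub ((hasDerivAt_id s).mul (ent2 hK hQ hp hsc))).add
      (intervalIntegral.integral_hasDerivAt_right (hcont.intervalIntegrable _ _)
        (hcont.stronglyMeasurableAtFilter _ _) hcont.continuousAt)
  have hm : MonotoneOn Φ (Icc a 0) := by
    apply monotoneOn_of_deriv_nonneg (convex_Icc a 0)
    · intro s hs
      exact (hd s hs).continuousAt.continuousWithinAt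
    · intro s hs
      exact (hd s (interior_subset hs)).differentiableAt.differentiableWithinAt
    · intro s hs
      have hs' := interior_subset hs
      rw [(hd s hs').deriv]
      have hsc : s < c := hs'.2.trans_lt hc
      have h1 := ent3 hK hQ hp hsc
      rw [← Bt_eq hs'.2] at h1
      have h2 : 0 ≤ (-s) * ((∫ θ in (0 : ℝ)..(2 * Real.pi), lap K1 Q Q1 s θ) + Bt K1 Q s) :=
        mul_nonneg (by linarith [hs'.2]) (by linarith)
      linarith
  have h := hm ⟨le_rfl, ha⟩ ⟨ha, le_rfl⟩ ha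
  simp only [hΦ, intervalIntegral.integral_same, zero_mul, sub_zero, add_zero] at h
  linarith

end

/-- **The entropy inequality**, holomorphic version. -/
theorem ent_main {F P : ℂ → ℂ} {R₁ : ℝ} (hR : 1 < R₁) (hF : DifferentiableOn ℂ F (ball 0 R₁))
    (hP : DifferentiableOn ℂ P (ball 0 R₁)) (hp : ∀ w ∈ ball (0 : ℂ) R₁, 0 < (P w).re) {T : ℝ}
    (hT : ∀ a ≤ 0, ∫ s in a..0, (-s) * ∫ θ in (0 : ℝ)..(2 * Real.pi),
      ‖pt (Real.exp s) θ * deriv F (pt (Real.exp s) θ)‖ ^ 2 * (P (pt (Real.exp s) θ)).re ≤ T) :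
    2 * Real.pi * ((P 0).re * Real.log (P 0).re - (F 0).re * (P 0).re) - T ≤
      ∫ θ in (0 : ℝ)..(2 * Real.pi), ((P (pt 1 θ)).re * Real.log (P (pt 1 θ)).re -
        (F (pt 1 θ)).re * (P (pt 1 θ)).re) := by
  have hpi := Real.pi_pos
  have hR0 : 0 < R₁ := by linarith
  have hc : 0 < Real.log R₁ := Real.log_pos hR
  have hK := kd_of hR0 hF
  have hQ := kd_of hR0 hP
  have hp' : ∀ ζ : ℂ, ζ.re < Real.log R₁ → 0 < (P (Complex.exp ζ)).re := by
    intro ζ hζ
    apply hp
    rw [mem_ball_zero_iff, Complex.norm_exp, ← Real.exp_log hR0]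
    exact Real.exp_lt_exp.2 hζ
  have hcb : closedBall (0 : ℂ) 1 ⊆ ball 0 R₁ := closedBall_subset_ball hR
  -- continuity on the closed disc
  have cF := hF.continuousOn.mono hcb
  have cP := hP.continuousOn.mono hcb
  have cF1 := (hF.deriv isOpen_ball).continuousOn.mono hcb
  have cP1 := (hP.deriv isOpen_ball).continuousOn.mono hcb
  have cl : ContinuousOn (fun w => Real.log (P w).re) (closedBall (0 : ℂ) 1) :=
    (continuous_re.comp_continuousOn cP).log fun w hw => (hp w (hcb hw)).ne'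
  have hcomp : IsCompact (closedBall (0 : ℂ) 1) := isCompact_closedBall _ _
  obtain ⟨M1, hM1⟩ := hcomp.exists_bound_of_continuousOn
    (((continuous_re.comp_continuousOn cP).mul cl).sub
      ((continuous_re.comp_continuousOn cF).mul (continuous_re.comp_continuousOn cP)))
  obtain ⟨M2, hM2⟩ := hcomp.exists_bound_of_continuousOn
    ((((cP1).norm).mul ((cl.add continuousOn_const).norm)).add
      ((cF1.norm.mul cP.norm).add (cF.norm.mul cP1.norm)) :
      ContinuousOn (fun w => ‖deriv P w‖ * ‖Real.log (P w).re + 1‖ +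
        (‖deriv F w‖ * ‖P w‖ + ‖F w‖ * ‖deriv P w‖)) (closedBall (0 : ℂ) 1))
  have hmem : ∀ a θ : ℝ, a ≤ 0 → pt (Real.exp a) θ ∈ closedBall (0 : ℂ) 1 := by
    intro a θ ha
    rw [mem_closedBall_zero_iff, norm_pt _ θ (Real.exp_pos a).le]
    exact Real.exp_le_one_iff.2 ha
  -- the left side tends to the value at the centre
  set φ : ℂ → ℝ := fun w => (P w).re * Real.log (P w).re - (F w).re * (P w).re with hφ
  have hφc : ContinuousAt φ 0 := by
    have h0 : (0 : ℂ) ∈ ball (0 : ℂ) R₁ := mem_ball_self hR0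
    have a1 := (hF.continuousOn.continuousAt (isOpen_ball.mem_nhds h0))
    have a2 := (hP.continuousOn.continuousAt (isOpen_ball.mem_nhds h0))
    have b1 := continuous_re.continuousAt.comp a1
    have b2 := continuous_re.continuousAt.comp a2
    exact (b2.mul (b2.log (hp 0 h0).ne')).sub (b1.mul b2)
  have hlim1 : Tendsto (fun a : ℝ => ∫ θ in (0 : ℝ)..(2 * Real.pi), φ (pt (Real.exp a) θ)) atBot
      (𝓝 (∫ _θ in (0 : ℝ)..(2 * Real.pi), φ 0)) := by
    apply intervalIntegral.tendsto_integral_filter_of_dominated_convergence (fun _ => M1)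
    · filter_upwards [eventually_le_atBot (0 : ℝ)] with a ha
      apply Continuous.aestronglyMeasurable
      have e : (fun θ => φ (pt (Real.exp a) θ)) = fun θ => ff (fun ζ => F (Complex.exp ζ))
          (fun ζ => P (Complex.exp ζ)) a θ := by
        funext θ
        simp only [hφ, ff, exp_zt]
      rw [e]
      have hac : a < Real.log R₁ := ha.trans_lt hc
      have d0 := continuous_re.comp (cont1 hac (kcK hQ))
      have k0 := continuous_re.comp (cont1 hac (kcK hK))
      exact (d0.mul (d0.log fun θ => (hp' _ (by rw [zt_re]; exact hac)).ne')).sub (k0.mul d0)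
    · filter_upwards [eventually_le_atBot (0 : ℝ)] with a ha
      refine Eventually.of_forall fun θ _ => ?_
      exact hM1 _ (hmem a θ ha)
    · exact intervalIntegrable_const
    · refine Eventually.of_forall fun θ _ => ?_
      apply hφc.tendsto.comp
      rw [tendsto_zero_iff_norm_tendsto_zero]
      have : (fun a : ℝ => ‖pt (Real.exp a) θ‖) = Real.exp := by
        funext a
        exact norm_pt _ θ (Real.exp_pos a).le
      rw [this]
      exact Real.tendsto_exp_atBot
  rw [intervalIntegral.integral_const, sub_zero, smul_eq_mul] at hlim1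
  -- the derivative term tends to zero
  have hA1 : ∀ a : ℝ, a ≤ 0 → |∫ θ in (0 : ℝ)..(2 * Real.pi), ff1 (fun ζ => F (Complex.exp ζ))
      (fun ζ => Complex.exp ζ * deriv F (Complex.exp ζ)) (fun ζ => P (Complex.exp ζ))
      (fun ζ => Complex.exp ζ * deriv P (Complex.exp ζ)) a θ| ≤ Real.exp a * M2 * (2 * Real.pi) := by
    intro a ha
    have h1 := intervalIntegral.norm_integral_le_of_norm_le_const (a := 0) (b := 2 * Real.pi)
      (C := Real.exp a * M2) (f := fun θ => ff1 (fun ζ => F (Complex.exp ζ))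
      (fun ζ => Complex.exp ζ * deriv F (Complex.exp ζ)) (fun ζ => P (Complex.exp ζ))
      (fun ζ => Complex.exp ζ * deriv P (Complex.exp ζ)) a θ) (by
        intro θ _
        obtain ⟨w, hw⟩ : ∃ w, w = pt (Real.exp a) θ := ⟨_, rfl⟩
        have hwn : ‖w‖ = Real.exp a := by rw [hw]; exact norm_pt _ θ (Real.exp_pos a).le
        have h2 := hM2 w (hw ▸ hmem a θ ha)
        have h3 : ‖deriv P w‖ * ‖Real.log (P w).re + 1‖ +
            (‖deriv F w‖ * ‖P w‖ + ‖F w‖ * ‖deriv P w‖) ≤ M2 := (le_abs_self _).trans h2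
        simp only [ff1, exp_zt, ← hw]
        have n1 : ‖(w * deriv P w).re * (Real.log (P w).re + 1)‖ ≤
            Real.exp a * (‖deriv P w‖ * ‖Real.log (P w).re + 1‖) := by
          rw [norm_mul]
          have : ‖(w * deriv P w).re‖ ≤ Real.exp a * ‖deriv P w‖ := by
            refine (abs_re_le_norm _).trans ?_
            rw [norm_mul, hwn]
          calc _ ≤ (Real.exp a * ‖deriv P w‖) * ‖Real.log (P w).re + 1‖ :=
                mul_le_mul_of_nonneg_right this (norm_nonneg _)
            _ = _ := by ring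
        have n2 : ‖(w * deriv F w).re * (P w).re‖ ≤ Real.exp a * (‖deriv F w‖ * ‖P w‖) := by
          rw [norm_mul]
          have t1 : ‖(w * deriv F w).re‖ ≤ Real.exp a * ‖deriv F w‖ := by
            refine (abs_re_le_norm _).trans ?_
            rw [norm_mul, hwn]
          have t2 : ‖(P w).re‖ ≤ ‖P w‖ := abs_re_le_norm _
          calc _ ≤ (Real.exp a * ‖deriv F w‖) * ‖P w‖ :=
                mul_le_mul t1 t2 (norm_nonneg _) (by positivity)
            _ = _ := by ring
        have n3 : ‖(F w).re * (w * deriv P w).re‖ ≤ Real.exp a * (‖F w‖ * ‖deriv P w‖) := by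
          rw [norm_mul]
          have t1 : ‖(w * deriv P w).re‖ ≤ Real.exp a * ‖deriv P w‖ := by
            refine (abs_re_le_norm _).trans ?_
            rw [norm_mul, hwn]
          have t2 : ‖(F w).re‖ ≤ ‖F w‖ := abs_re_le_norm _
          calc _ ≤ ‖F w‖ * (Real.exp a * ‖deriv P w‖) :=
                mul_le_mul t2 t1 (norm_nonneg _) (norm_nonneg _)
            _ = _ := by ring
        have n4 := norm_sub_le ((w * deriv P w).re * (Real.log (P w).re + 1))
          ((w * deriv F w).re * (P w).re + (F w).re * (w * deriv P w).re)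
        have n5 := norm_add_le ((w * deriv F w).re * (P w).re) ((F w).re * (w * deriv P w).re)
        have n6 := mul_le_mul_of_nonneg_left h3 (Real.exp_pos a).le
        linarith)
    rw [sub_zero, abs_of_pos (by positivity)] at h1
    exact h1
  have hlim2 : Tendsto (fun a : ℝ => a * ∫ θ in (0 : ℝ)..(2 * Real.pi), ff1 (fun ζ => F (Complex.exp ζ))
      (fun ζ => Complex.exp ζ * deriv F (Complex.exp ζ)) (fun ζ => P (Complex.exp ζ))
      (fun ζ => Complex.exp ζ * deriv P (Complex.exp ζ)) a θ) atBot (𝓝 0) := by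
    have h0 : Tendsto (fun a : ℝ => |a| * Real.exp a * (M2 * (2 * Real.pi))) atBot (𝓝 0) := by
      have h1 := Real.tendsto_pow_mul_exp_neg_atTop_nhds_zero 1
      have h2 : Tendsto (fun a : ℝ => (-a) ^ 1 * Real.exp (-(-a))) atBot (𝓝 0) :=
        h1.comp tendsto_neg_atBot_atTop
      have h3 : Tendsto (fun a : ℝ => |a| * Real.exp a) atBot (𝓝 0) := by
        refine h2.congr' ?_
        filter_upwards [eventually_le_atBot (0 : ℝ)] with a ha
        rw [pow_one, neg_neg, abs_of_nonpos ha]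
      have h4 := h3.mul_const (M2 * (2 * Real.pi))
      rwa [zero_mul] at h4
    refine squeeze_zero_norm' ?_ h0
    filter_upwards [eventually_le_atBot (0 : ℝ)] with a ha
    rw [norm_mul, Real.norm_eq_abs, Real.norm_eq_abs]
    have := mul_le_mul_of_nonneg_left (hA1 a ha) (abs_nonneg a)
    linarith
  have hfin : ∀ a : ℝ, a ≤ 0 → (∫ θ in (0 : ℝ)..(2 * Real.pi), φ (pt (Real.exp a) θ)) -
      a * (∫ θ in (0 : ℝ)..(2 * Real.pi), ff1 (fun ζ => F (Complex.exp ζ))
      (fun ζ => Complex.exp ζ * deriv F (Complex.exp ζ)) (fun ζ => P (Complex.exp ζ))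
      (fun ζ => Complex.exp ζ * deriv P (Complex.exp ζ)) a θ) - T ≤
      ∫ θ in (0 : ℝ)..(2 * Real.pi), φ (pt 1 θ) := by
    intro a ha
    have h1 := mono hc hK hQ hp' ha
    have h2 := hT a ha
    have e1 : ∫ s in a..0, (-s) * Bt (fun ζ => Complex.exp ζ * deriv F (Complex.exp ζ))
        (fun ζ => P (Complex.exp ζ)) s = ∫ s in a..0, (-s) * ∫ θ in (0 : ℝ)..(2 * Real.pi),
        ‖pt (Real.exp s) θ * deriv F (pt (Real.exp s) θ)‖ ^ 2 * (P (pt (Real.exp s) θ)).re := by
      apply intervalIntegral.integral_congr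
      intro s hs
      rw [uIcc_of_le ha] at hs
      simp only
      rw [Bt_eq hs.2]
      simp only [exp_zt]
    rw [e1] at h1
    have e2 : ∀ θ, ff (fun ζ => F (Complex.exp ζ)) (fun ζ => P (Complex.exp ζ)) a θ =
        φ (pt (Real.exp a) θ) := by
      intro θ
      simp only [hφ, ff, exp_zt]
    have e3 : ∀ θ, ff (fun ζ => F (Complex.exp ζ)) (fun ζ => P (Complex.exp ζ)) 0 θ =
        φ (pt 1 θ) := by
      intro θ
      simp only [hφ, ff, exp_zt, Real.exp_zero]
    simp only [e2, e3] at h1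
    linarith
  have hlim := (hlim1.sub hlim2).sub_const T
  rw [sub_zero] at hlim
  refine le_of_tendsto hlim ?_
  filter_upwards [eventually_le_atBot (0 : ℝ)] with a ha using hfin a ha

end Pool.Agent.TH790.SF
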