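import Pool.Agent.TH790.SF.B

set_option autoImplicit false

/-! # The square function and its pairing with positive harmonic functions -/

namespace Pool.Agent.TH790.SF

open Complex Metric Set Filter Topology MeasureTheory
open Pool.Agent.W677.Mar

/-- the Poisson kernel of the point `e^(s + iθ)` at the boundary point `e^(iφ)` -/
noncomputable def PK (s θ φ : ℝ) : ℝ := poissonKernel 0 (pt (Real.exp s) θ) (pt 1 φ)

/-- `|z F'(z)|²` at `z = e^(s + iθ)` -/
noncomputable def DD (F : ℂ → ℂ) (s θ : ℝ) : ℝ :=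
  ‖pt (Real.exp s) θ * deriv F (pt (Real.exp s) θ)‖ ^ 2

/-- the mean of `|z F'(z)|²` with respect to the Poisson kernel, times `2 π` -/
noncomputable def JJ (F : ℂ → ℂ) (s φ : ℝ) : ℝ :=
  ∫ θ in (0 : ℝ)..(2 * Real.pi), DD F s θ * PK s θ φ

/-- the square function -/
noncomputable def SS (F : ℂ → ℂ) (φ : ℝ) : ℝ :=
  (1 / Real.pi) * ∫ s in Iio (0 : ℝ), (-s) * JJ F s φ

theorem PK_eq (s θ φ : ℝ) : PK s θ φ =
    (1 - Real.exp s ^ 2) / ‖pt 1 φ - pt (Real.exp s) θ‖ ^ 2 := by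
  rw [PK, poissonKernel_def]
  simp only [sub_zero]
  rw [norm_pt 1 φ zero_le_one, norm_pt _ θ (Real.exp_pos s).le, one_pow]

theorem pt_re (r θ : ℝ) : (pt r θ).re = r * Real.cos θ := by
  simp [pt, circleMap, Complex.exp_re]

theorem pt_im (r θ : ℝ) : (pt r θ).im = r * Real.sin θ := by
  simp [pt, circleMap, Complex.exp_im]

theorem dist_sq (r θ φ : ℝ) : ‖pt 1 φ - pt r θ‖ ^ 2 = 1 + r ^ 2 - 2 * r * Real.cos (φ - θ) := by
  rw [← Complex.normSq_eq_norm_sq, Complex.normSq_apply]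
  simp only [sub_re, sub_im, pt_re, pt_im, Real.cos_sub]
  have h1 := Real.sin_sq_add_cos_sq φ
  have h2 := Real.sin_sq_add_cos_sq θ
  linear_combination h1 + r ^ 2 * h2

theorem PK_symm (s θ φ : ℝ) : PK s θ φ = PK s φ θ := by
  rw [PK_eq, PK_eq, dist_sq, dist_sq]
  congr 3
  rw [← Real.cos_neg]
  congr 1
  ring

theorem PK_nonneg {s : ℝ} (hs : s ≤ 0) (θ φ : ℝ) : 0 ≤ PK s θ φ := by
  rw [PK_eq]
  apply div_nonneg _ (sq_nonneg _)
  have h1 : Real.exp s ≤ 1 := Real.exp_le_one_iff.2 hs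
  have h2 := Real.exp_pos s
  nlinarith

theorem dist_pos {s : ℝ} (hs : s < 0) (θ φ : ℝ) : 0 < ‖pt 1 φ - pt (Real.exp s) θ‖ ^ 2 := by
  have h1 : Real.exp s < 1 := Real.exp_lt_one_iff.2 hs
  have h2 : ‖pt 1 φ‖ - ‖pt (Real.exp s) θ‖ ≤ ‖pt 1 φ - pt (Real.exp s) θ‖ := norm_sub_norm_le _ _
  rw [norm_pt 1 φ zero_le_one, norm_pt _ θ (Real.exp_pos s).le] at h2
  have : 0 < ‖pt 1 φ - pt (Real.exp s) θ‖ := by linarith
  positivity

theorem pt_cont2 : Continuous fun q : ℝ × ℝ => pt (Real.exp q.1) q.2 := by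
  unfold pt circleMap
  fun_prop

theorem PK_cont {s : ℝ} (hs : s < 0) : Continuous fun q : ℝ × ℝ => PK s q.1 q.2 := by
  have h1 : Continuous fun q : ℝ × ℝ => ‖pt 1 q.2 - pt (Real.exp s) q.1‖ ^ 2 :=
    ((((continuous_pt 1).comp continuous_snd).sub ((continuous_pt _).comp continuous_fst)).norm).pow 2
  have h2 : Continuous fun q : ℝ × ℝ => (1 - Real.exp s ^ 2) / ‖pt 1 q.2 - pt (Real.exp s) q.1‖ ^ 2 :=
    continuous_const.div h1 fun q => (dist_pos hs _ _).ne'
  refine h2.congr fun q => ?_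
  rw [PK_eq]

theorem PK_meas : Measurable fun q : (ℝ × ℝ) × ℝ => PK q.1.1 q.2 q.1.2 := by
  have h1 : Continuous fun q : (ℝ × ℝ) × ℝ => pt 1 q.1.2 - pt (Real.exp q.1.1) q.2 := by
    unfold pt circleMap
    fun_prop
  have h2 : Measurable fun q : (ℝ × ℝ) × ℝ =>
      (1 - Real.exp q.1.1 ^ 2) / ‖pt 1 q.1.2 - pt (Real.exp q.1.1) q.2‖ ^ 2 := by
    apply Measurable.div
    · exact (Continuous.measurable (by fun_prop))
    · exact (h1.norm.pow 2).measurable
  convert h2 using 2 with q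
  rw [PK_eq]

theorem DD_meas (F : ℂ → ℂ) : Measurable fun q : (ℝ × ℝ) × ℝ => DD F q.1.1 q.2 := by
  have h1 : Continuous fun q : (ℝ × ℝ) × ℝ => pt (Real.exp q.1.1) q.2 := by
    unfold pt circleMap
    fun_prop
  unfold DD
  exact ((h1.measurable.mul ((measurable_deriv F).comp h1.measurable)).norm).pow_const 2

theorem JJ_meas (F : ℂ → ℂ) : StronglyMeasurable fun q : ℝ × ℝ => JJ F q.1 q.2 := by
  have h1 : StronglyMeasurable (fun q : (ℝ × ℝ) × ℝ => DD F q.1.1 q.2 * PK q.1.1 q.2 q.1.2) :=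
    ((DD_meas F).mul PK_meas).stronglyMeasurable
  have h2 := h1.integral_prod_right' (ν := volume.restrict (Ioc 0 (2 * Real.pi)))
  have e : (fun q : ℝ × ℝ => JJ F q.1 q.2) = fun x : ℝ × ℝ => ∫ y in Ioc 0 (2 * Real.pi),
      DD F (x, y).1.1 (x, y).2 * PK (x, y).1.1 (x, y).2 (x, y).1.2 := by
    funext q
    rw [JJ, intervalIntegral.integral_of_le (by have := Real.pi_pos; positivity)]
  rw [e]
  exact h2

section

variable {F : ℂ → ℂ} {R₁ M : ℝ}

theorem DD_nonneg (F : ℂ → ℂ) (s θ : ℝ) : 0 ≤ DD F s θ := sq_nonneg _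

theorem DD_cont (hR : 1 < R₁) (hF : DifferentiableOn ℂ F (ball 0 R₁)) {s : ℝ} (hs : s ≤ 0) :
    Continuous fun θ : ℝ => DD F s θ := by
  have h1 : ContinuousOn (deriv F) (ball 0 R₁) := (hF.deriv isOpen_ball).continuousOn
  have h2 : Continuous fun θ : ℝ => deriv F (pt (Real.exp s) θ) := by
    apply h1.comp_continuous (continuous_pt _)
    intro θ
    rw [mem_ball_zero_iff, norm_pt _ θ (Real.exp_pos s).le]
    exact (Real.exp_le_one_iff.2 hs).trans_lt hR
  exact (((continuous_pt _).mul h2).norm).pow 2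

theorem DD_bound (hM : ∀ w ∈ closedBall (0 : ℂ) 1, ‖deriv F w‖ ≤ M) {s : ℝ} (hs : s ≤ 0) (θ : ℝ) :
    DD F s θ ≤ M ^ 2 * Real.exp s ^ 2 := by
  have h1 : pt (Real.exp s) θ ∈ closedBall (0 : ℂ) 1 := by
    rw [mem_closedBall_zero_iff, norm_pt _ θ (Real.exp_pos s).le]
    exact Real.exp_le_one_iff.2 hs
  have h2 := hM _ h1
  unfold DD
  rw [norm_mul, norm_pt _ θ (Real.exp_pos s).le, mul_pow, mul_comm]
  exact mul_le_mul_of_nonneg_right (pow_le_pow_left₀ (norm_nonneg _) h2 2) (sq_nonneg _)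

attribute [local irreducible] PK DD JJ SS poissonKernel pt

/-- Poisson's formula -/
theorem pois {P : ℂ → ℂ} (hR : 1 < R₁) (hP : DifferentiableOn ℂ P (ball 0 R₁)) {s : ℝ} (hs : s < 0)
    (θ : ℝ) : ∫ φ in (0 : ℝ)..(2 * Real.pi), PK s θ φ * (P (pt 1 φ)).re =
      2 * Real.pi * (P (pt (Real.exp s) θ)).re := by
  have hpi := Real.pi_pos
  have hw : pt (Real.exp s) θ ∈ ball (0 : ℂ) 1 := by
    rw [mem_ball_zero_iff, norm_pt _ θ (Real.exp_pos s).le]
    exact Real.exp_lt_one_iff.2 hs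
  have hD : DiffContOnCl ℂ P (ball 0 1) := by
    apply DifferentiableOn.diffContOnCl
    rw [closure_ball (0 : ℂ) one_ne_zero]
    exact hP.mono (closedBall_subset_ball hR)
  have h1 := hD.circleAverage_poissonKernel_smul hw
  have hcP : Continuous fun φ : ℝ => P (pt 1 φ) := by
    apply hP.continuousOn.comp_continuous (continuous_pt 1)
    intro φ
    rw [mem_ball_zero_iff, norm_pt 1 φ zero_le_one]
    exact hR
  have hcK : Continuous fun φ : ℝ => PK s θ φ := (PK_cont hs).comp (continuous_const.prodMk continuous_id)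
  unfold Real.circleAverage at h1
  have h2 := congrArg Complex.re h1
  have e1 : (∫ φ in (0 : ℝ)..(2 * Real.pi), (poissonKernel 0 (pt (Real.exp s) θ) • P) (circleMap 0 1 φ)) =
      ∫ φ in (0 : ℝ)..(2 * Real.pi), ((PK s θ φ : ℝ) : ℂ) * P (pt 1 φ) := by
    refine intervalIntegral.integral_congr fun φ _ => ?_
    unfold PK
    simp only [Pi.smul_apply', Complex.real_smul, pt]
  rw [e1, Complex.real_smul, Complex.re_ofReal_mul] at h2
  have hci : Continuous fun φ : ℝ => ((PK s θ φ : ℝ) : ℂ) * P (pt 1 φ) :=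
    (Complex.continuous_ofReal.comp hcK).mul hcP
  have e2 : (∫ φ in (0 : ℝ)..(2 * Real.pi), ((PK s θ φ : ℝ) : ℂ) * P (pt 1 φ)).re =
      ∫ φ in (0 : ℝ)..(2 * Real.pi), PK s θ φ * (P (pt 1 φ)).re := by
    have h3 : (∫ φ in (0 : ℝ)..(2 * Real.pi), Complex.reCLM (((PK s θ φ : ℝ) : ℂ) * P (pt 1 φ))) =
        Complex.reCLM (∫ φ in (0 : ℝ)..(2 * Real.pi), ((PK s θ φ : ℝ) : ℂ) * P (pt 1 φ)) :=
      ContinuousLinearMap.intervalIntegral_comp_comm _ (hci.intervalIntegrable 0 (2 * Real.pi))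
    simp only [Complex.reCLM_apply, Complex.re_ofReal_mul] at h3
    exact h3.symm
  rw [e2] at h2
  rw [← h2, ← mul_assoc, mul_inv_cancel₀ (by positivity), one_mul]

/-- the kernel has mean one in the angle of the interior point -/
theorem pois_one {s : ℝ} (hs : s < 0) (φ : ℝ) :
    ∫ θ in (0 : ℝ)..(2 * Real.pi), PK s θ φ = 2 * Real.pi := by
  have h1 := pois (P := fun _ => (1 : ℂ)) (R₁ := 2) (by norm_num)
    (differentiableOn_const (1 : ℂ)) hs φ
  simp only [one_re, mul_one] at h1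
  refine Eq.trans ?_ h1
  refine intervalIntegral.integral_congr fun θ _ => ?_
  exact PK_symm s θ φ

theorem JJ_nonneg {s : ℝ} (hs : s < 0) (φ : ℝ) : 0 ≤ JJ F s φ := by
  have hpi := Real.pi_pos
  have h2pi : (0 : ℝ) ≤ 2 * Real.pi := by positivity
  rw [JJ]
  exact intervalIntegral.integral_nonneg h2pi fun θ _ =>
    mul_nonneg (DD_nonneg F s θ) (PK_nonneg hs.le θ φ)

theorem JJ_bound (hR : 1 < R₁) (hF : DifferentiableOn ℂ F (ball 0 R₁))
    (hM : ∀ w ∈ closedBall (0 : ℂ) 1, ‖deriv F w‖ ≤ M) {s : ℝ} (hs : s < 0) (φ : ℝ) :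
    JJ F s φ ≤ 2 * Real.pi * (M ^ 2 * Real.exp s ^ 2) := by
  have hcK : Continuous fun θ : ℝ => PK s θ φ := (PK_cont hs).comp (continuous_id.prodMk continuous_const)
  have h1 : JJ F s φ ≤ ∫ θ in (0 : ℝ)..(2 * Real.pi), (M ^ 2 * Real.exp s ^ 2) * PK s θ φ := by
    rw [JJ]
    apply intervalIntegral.integral_mono_on (by have := Real.pi_pos; positivity)
    · exact ((DD_cont hR hF hs.le).mul hcK).intervalIntegrable _ _
    · exact (continuous_const.mul hcK).intervalIntegrable _ _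
    · intro θ _
      exact mul_le_mul_of_nonneg_right (DD_bound hM hs.le θ) (PK_nonneg hs.le θ φ)
  rw [intervalIntegral.integral_const_mul, pois_one hs] at h1
  linarith

theorem JJ_cont (hR : 1 < R₁) (hF : DifferentiableOn ℂ F (ball 0 R₁)) {s : ℝ} (hs : s < 0) :
    Continuous fun φ : ℝ => JJ F s φ := by
  unfold JJ
  apply intervalIntegral.continuous_parametric_intervalIntegral_of_continuous'
  have h1 : Continuous fun q : ℝ × ℝ => DD F s q.2 := (DD_cont hR hF hs.le).comp continuous_snd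
  have h2 : Continuous fun q : ℝ × ℝ => PK s q.2 q.1 := (PK_cont hs).comp
    (continuous_snd.prodMk continuous_fst)
  exact h1.mul h2

theorem exp_le (s : ℝ) : (-s) * Real.exp s ^ 2 ≤ Real.exp s := by
  have h1 : (-s) ≤ Real.exp (-s) := by
    have := Real.add_one_le_exp (-s)
    linarith
  have h2 : (-s) * Real.exp s ≤ Real.exp (-s) * Real.exp s :=
    mul_le_mul_of_nonneg_right h1 (Real.exp_pos s).le
  rw [← Real.exp_add, neg_add_cancel, Real.exp_zero] at h2
  have h3 := mul_le_mul_of_nonneg_right h2 (Real.exp_pos s).le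
  calc (-s) * Real.exp s ^ 2 = (-s) * Real.exp s * Real.exp s := by ring
    _ ≤ 1 * Real.exp s := h3
    _ = Real.exp s := one_mul _

theorem int_exp : IntegrableOn Real.exp (Iio (0 : ℝ)) :=
  (integrableOn_exp_Iic 0).mono_set Iio_subset_Iic_self

theorem sJ_bound (hR : 1 < R₁) (hF : DifferentiableOn ℂ F (ball 0 R₁))
    (hM : ∀ w ∈ closedBall (0 : ℂ) 1, ‖deriv F w‖ ≤ M) {s : ℝ} (hs : s < 0) (φ : ℝ) :
    ‖(-s) * JJ F s φ‖ ≤ 2 * Real.pi * M ^ 2 * Real.exp s := by
  have hpi := Real.pi_pos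
  rw [Real.norm_of_nonneg (mul_nonneg (by linarith) (JJ_nonneg hs φ))]
  have h1 := mul_le_mul_of_nonneg_left (JJ_bound hR hF hM hs φ) (by linarith : 0 ≤ -s)
  have h2 := mul_le_mul_of_nonneg_left (exp_le s) (by positivity : 0 ≤ 2 * Real.pi * M ^ 2)
  calc _ ≤ _ := h1
    _ = 2 * Real.pi * M ^ 2 * (-s * Real.exp s ^ 2) := by ring
    _ ≤ _ := h2

theorem SS_nonneg (F : ℂ → ℂ) (φ : ℝ) : 0 ≤ SS F φ := by
  have hpi := Real.pi_pos
  unfold SS
  apply mul_nonneg (by positivity)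
  apply setIntegral_nonneg measurableSet_Iio
  intro s hs
  exact mul_nonneg (by have : s < 0 := hs; linarith) (JJ_nonneg hs φ)

theorem sJ_int (hR : 1 < R₁) (hF : DifferentiableOn ℂ F (ball 0 R₁))
    (hM : ∀ w ∈ closedBall (0 : ℂ) 1, ‖deriv F w‖ ≤ M) (φ : ℝ) :
    IntegrableOn (fun s => (-s) * JJ F s φ) (Iio (0 : ℝ)) := by
  refine (int_exp.const_mul (2 * Real.pi * M ^ 2)).mono' ?_ ?_
  · have h1 : StronglyMeasurable fun s : ℝ => JJ F s φ :=
      (JJ_meas F).comp_measurable (measurable_id.prodMk measurable_const)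
    exact (measurable_neg.stronglyMeasurable.mul h1).aestronglyMeasurable
  · filter_upwards [ae_restrict_mem measurableSet_Iio] with s hs
    exact sJ_bound hR hF hM hs φ

theorem SS_cont (hR : 1 < R₁) (hF : DifferentiableOn ℂ F (ball 0 R₁))
    (hM : ∀ w ∈ closedBall (0 : ℂ) 1, ‖deriv F w‖ ≤ M) : Continuous (SS F) := by
  unfold SS
  apply continuous_const.mul
  apply continuous_of_dominated (bound := fun s => 2 * Real.pi * M ^ 2 * Real.exp s)
  · intro φ
    exact (sJ_int hR hF hM φ).aestronglyMeasurable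
  · intro φ
    filter_upwards [ae_restrict_mem measurableSet_Iio] with s hs
    exact sJ_bound hR hF hM hs φ
  · exact int_exp.const_mul _
  · filter_upwards [ae_restrict_mem measurableSet_Iio] with s hs
    exact continuous_const.mul (JJ_cont hR hF hs)

theorem SS_per (F : ℂ → ℂ) (φ : ℝ) : SS F (φ + 2 * Real.pi) = SS F φ := by
  unfold SS JJ
  have h : ∀ s θ : ℝ, PK s θ (φ + 2 * Real.pi) = PK s θ φ := by
    intro s θ
    unfold PK
    rw [pt_periodic 1 φ]
  simp only [h]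

/-- the inner pairing -/
theorem pair_in {P : ℂ → ℂ} (hR : 1 < R₁) (hF : DifferentiableOn ℂ F (ball 0 R₁))
    (hP : DifferentiableOn ℂ P (ball 0 R₁)) {s : ℝ} (hs : s < 0) :
    ∫ φ in (0 : ℝ)..(2 * Real.pi), JJ F s φ * (P (pt 1 φ)).re =
      2 * Real.pi * ∫ θ in (0 : ℝ)..(2 * Real.pi), DD F s θ * (P (pt (Real.exp s) θ)).re := by
  have hpi := Real.pi_pos
  have h2pi : (0 : ℝ) ≤ 2 * Real.pi := by positivity
  have hcP : Continuous fun φ : ℝ => (P (pt 1 φ)).re := by
    apply continuous_re.comp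
    apply hP.continuousOn.comp_continuous (continuous_pt 1)
    intro φ
    rw [mem_ball_zero_iff, norm_pt 1 φ zero_le_one]
    exact hR
  have hc : Continuous (Function.uncurry fun φ θ : ℝ => DD F s θ * PK s θ φ * (P (pt 1 φ)).re) := by
    have h1 : Continuous fun q : ℝ × ℝ => DD F s q.2 := (DD_cont hR hF hs.le).comp continuous_snd
    have h2 : Continuous fun q : ℝ × ℝ => PK s q.2 q.1 := (PK_cont hs).comp
      (continuous_snd.prodMk continuous_fst)
    exact (h1.mul h2).mul (hcP.comp continuous_fst)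
  have hint : Integrable (Function.uncurry fun φ θ : ℝ => DD F s θ * PK s θ φ * (P (pt 1 φ)).re)
      ((volume.restrict (Ioc 0 (2 * Real.pi))).prod (volume.restrict (Ioc 0 (2 * Real.pi)))) := by
    rw [Measure.prod_restrict]
    apply (hc.continuousOn.integrableOn_compact (isCompact_Icc.prod isCompact_Icc)).mono_set
      (t := Icc 0 (2 * Real.pi) ×ˢ Icc 0 (2 * Real.pi))
    exact prod_mono Ioc_subset_Icc_self Ioc_subset_Icc_self
  have h1 : ∀ φ : ℝ, JJ F s φ * (P (pt 1 φ)).re =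
      ∫ θ in (0 : ℝ)..(2 * Real.pi), DD F s θ * PK s θ φ * (P (pt 1 φ)).re := by
    intro φ
    rw [intervalIntegral.integral_mul_const, JJ]
  simp only [h1]
  rw [intervalIntegral.integral_of_le h2pi]
  simp only [intervalIntegral.integral_of_le h2pi]
  rw [integral_integral_swap hint, ← integral_const_mul]
  refine integral_congr_ae (Eventually.of_forall fun θ => ?_)
  simp only
  have h3 := pois hR hP hs θ
  rw [intervalIntegral.integral_of_le h2pi] at h3
  have h4 : ∀ φ : ℝ, DD F s θ * PK s θ φ * (P (pt 1 φ)).re =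
      DD F s θ * (PK s θ φ * (P (pt 1 φ)).re) := fun φ => by ring
  simp only [h4]
  rw [integral_const_mul, h3]
  ring

/-- **the pairing of the square function with a harmonic function** -/
theorem pair_out {P : ℂ → ℂ} (hR : 1 < R₁) (hF : DifferentiableOn ℂ F (ball 0 R₁))
    (hM : ∀ w ∈ closedBall (0 : ℂ) 1, ‖deriv F w‖ ≤ M)
    (hP : DifferentiableOn ℂ P (ball 0 R₁)) :
    ∫ φ in (0 : ℝ)..(2 * Real.pi), SS F φ * (P (pt 1 φ)).re =
      2 * ∫ s in Iio (0 : ℝ), (-s) * ∫ θ in (0 : ℝ)..(2 * Real.pi),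
        DD F s θ * (P (pt (Real.exp s) θ)).re := by
  have hpi := Real.pi_pos
  have h2pi : (0 : ℝ) ≤ 2 * Real.pi := by positivity
  have hcP : Continuous fun φ : ℝ => (P (pt 1 φ)).re := by
    apply continuous_re.comp
    apply hP.continuousOn.comp_continuous (continuous_pt 1)
    intro φ
    rw [mem_ball_zero_iff, norm_pt 1 φ zero_le_one]
    exact hR
  obtain ⟨N, hN⟩ := (isCompact_Icc (a := (0 : ℝ)) (b := 2 * Real.pi)).exists_bound_of_continuousOn
    hcP.continuousOn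
  have hmeas : AEStronglyMeasurable (Function.uncurry fun φ s : ℝ =>
      (-s) * JJ F s φ * (P (pt 1 φ)).re)
      ((volume.restrict (Ioc 0 (2 * Real.pi))).prod (volume.restrict (Iio (0 : ℝ)))) := by
    have h1 : StronglyMeasurable fun q : ℝ × ℝ => JJ F q.2 q.1 :=
      (JJ_meas F).comp_measurable (measurable_snd.prodMk measurable_fst)
    have h2 : StronglyMeasurable fun q : ℝ × ℝ => -q.2 := measurable_snd.neg.stronglyMeasurable
    have h3 : StronglyMeasurable fun q : ℝ × ℝ => (P (pt 1 q.1)).re :=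
      (hcP.comp continuous_fst).stronglyMeasurable
    exact ((h2.mul h1).mul h3).aestronglyMeasurable
  have hint : Integrable (Function.uncurry fun φ s : ℝ => (-s) * JJ F s φ * (P (pt 1 φ)).re)
      ((volume.restrict (Ioc 0 (2 * Real.pi))).prod (volume.restrict (Iio (0 : ℝ)))) := by
    have hb : Integrable (fun q : ℝ × ℝ => 2 * Real.pi * M ^ 2 * Real.exp q.2 * N)
        ((volume.restrict (Ioc 0 (2 * Real.pi))).prod (volume.restrict (Iio (0 : ℝ)))) :=
      Integrable.comp_snd (f := fun s => 2 * Real.pi * M ^ 2 * Real.exp s * N)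
        ((int_exp.const_mul (2 * Real.pi * M ^ 2)).mul_const N) _
    refine hb.mono' hmeas ?_
    rw [Measure.prod_restrict]
    filter_upwards [ae_restrict_mem (measurableSet_Ioc.prod measurableSet_Iio)] with q hq
    obtain ⟨φ, s⟩ := q
    simp only [Function.uncurry_apply_pair]
    rw [norm_mul]
    have h1 := sJ_bound hR hF hM hq.2 φ
    have h2 := hN φ ⟨hq.1.1.le, hq.1.2⟩
    exact mul_le_mul h1 h2 (norm_nonneg _) (by positivity)
  have h1 : ∀ φ : ℝ, SS F φ * (P (pt 1 φ)).re =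
      (1 / Real.pi) * ∫ s in Iio (0 : ℝ), (-s) * JJ F s φ * (P (pt 1 φ)).re := by
    intro φ
    rw [integral_mul_const]
    unfold SS
    ring
  simp only [h1]
  rw [intervalIntegral.integral_const_mul, intervalIntegral.integral_of_le h2pi,
    integral_integral_swap hint]
  have h2 : ∫ s in Iio (0 : ℝ), ∫ φ in Ioc 0 (2 * Real.pi), (-s) * JJ F s φ * (P (pt 1 φ)).re =
      ∫ s in Iio (0 : ℝ), 2 * Real.pi * ((-s) * ∫ θ in (0 : ℝ)..(2 * Real.pi),
        DD F s θ * (P (pt (Real.exp s) θ)).re) := by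
    refine setIntegral_congr_fun measurableSet_Iio fun s hs => ?_
    have h3 := pair_in hR hF hP hs
    rw [intervalIntegral.integral_of_le h2pi] at h3
    have h4 : ∀ φ : ℝ, (-s) * JJ F s φ * (P (pt 1 φ)).re = (-s) * (JJ F s φ * (P (pt 1 φ)).re) :=
      fun φ => by ring
    simp only [h4]
    rw [integral_const_mul, h3]
    ring
  rw [h2, integral_const_mul]
  field_simp

end

end Pool.Agent.TH790.SF
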