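import Pool.Agent.TH790.SF.C
import Mathlib.Analysis.Fourier.AddCircle

set_option autoImplicit false

/-! # Trigonometric approximation -/

namespace Pool.Agent.TH790.SF

open Complex Metric Set Filter Topology MeasureTheory
open Pool.Agent.W677.Mar
open scoped ComplexConjugate

theorem tp_pos : 0 < 2 * Real.pi := by
  have := Real.pi_pos
  positivity

theorem pt_exp (θ : ℝ) : pt 1 θ = Complex.exp (θ * I) := by
  simp [pt, circleMap]

theorem four_pt [Fact (0 < 2 * Real.pi)] (n : ℤ) (θ : ℝ) :
    fourier (T := 2 * Real.pi) n (θ : AddCircle (2 * Real.pi)) = Complex.exp (n * (θ * I)) := by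
  rw [fourier_coe_apply]
  congr 1
  have : ((2 * Real.pi : ℝ) : ℂ) ≠ 0 := by
    exact_mod_cast tp_pos.ne'
  push_cast at this ⊢
  field_simp

/-- real parts of trigonometric polynomials are real parts of polynomials -/
theorem span_re [Fact (0 < 2 * Real.pi)] (q : C(AddCircle (2 * Real.pi), ℂ))
    (hq : q ∈ Submodule.span ℂ (Set.range (fourier (T := 2 * Real.pi)))) :
    ∀ c : ℂ, ∃ P : Polynomial ℂ, ∀ θ : ℝ,
      (c * q (θ : AddCircle (2 * Real.pi))).re = (P.eval (pt 1 θ)).re := by
  induction hq using Submodule.span_induction with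
  | mem q hq =>
    obtain ⟨n, rfl⟩ := hq
    intro c
    rcases le_total 0 n with h | h
    · refine ⟨Polynomial.C c * Polynomial.X ^ n.toNat, fun θ => ?_⟩
      rw [four_pt, Polynomial.eval_mul, Polynomial.eval_C, Polynomial.eval_pow, Polynomial.eval_X,
        pt_exp, ← Complex.exp_nat_mul]
      have : ((n.toNat : ℕ) : ℂ) = (n : ℂ) := by
        have h1 : ((n.toNat : ℕ) : ℤ) = n := Int.toNat_of_nonneg h
        exact_mod_cast h1
      rw [this]
    · refine ⟨Polynomial.C (conj c) * Polynomial.X ^ (-n).toNat, fun θ => ?_⟩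
      rw [four_pt, Polynomial.eval_mul, Polynomial.eval_C, Polynomial.eval_pow, Polynomial.eval_X,
        pt_exp, ← Complex.exp_nat_mul]
      have h2 : (((-n).toNat : ℕ) : ℂ) = -(n : ℂ) := by
        have h1 : (((-n).toNat : ℕ) : ℤ) = -n := Int.toNat_of_nonneg (by omega)
        exact_mod_cast h1
      rw [h2]
      have h3 : Complex.exp (-(n : ℂ) * (θ * I)) = conj (Complex.exp (n * (θ * I))) := by
        rw [← Complex.exp_conj]
        congr 1
        simp
      rw [h3, ← map_mul, Complex.conj_re]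
  | zero => exact fun c => ⟨0, fun θ => by simp⟩
  | add f g _ _ hf hg =>
    intro c
    obtain ⟨P, h⟩ := hf c
    obtain ⟨P', h'⟩ := hg c
    refine ⟨P + P', fun t => ?_⟩
    rw [ContinuousMap.add_apply, Polynomial.eval_add, mul_add, add_re, add_re, h, h']
  | smul a f _ hf =>
    intro c
    obtain ⟨P, h⟩ := hf (c * a)
    refine ⟨P, fun t => ?_⟩
    rw [ContinuousMap.smul_apply, smul_eq_mul, ← mul_assoc, h]

/-- continuous periodic functions are uniformly approximated by real parts of polynomials -/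
theorem trig {f : ℝ → ℝ} (hf : Continuous f) (hp : Function.Periodic f (2 * Real.pi)) {ε : ℝ}
    (hε : 0 < ε) : ∃ P : Polynomial ℂ, ∀ φ : ℝ, |(P.eval (pt 1 φ)).re - f φ| ≤ ε := by
  haveI : Fact (0 < 2 * Real.pi) := ⟨tp_pos⟩
  let U : AddCircle (2 * Real.pi) → ℝ := hp.lift
  have hU : Continuous U := by
    have h0 : Topology.IsQuotientMap ((↑) : ℝ → AddCircle (2 * Real.pi)) :=
      QuotientAddGroup.isQuotientMap_mk _
    rw [h0.continuous_iff]
    have : U ∘ ((↑) : ℝ → AddCircle (2 * Real.pi)) = f := by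
      funext x
      exact hp.lift_coe x
    rw [this]
    exact hf
  let g : C(AddCircle (2 * Real.pi), ℂ) := ⟨fun t => (U t : ℂ), Complex.continuous_ofReal.comp hU⟩
  have h1 : g ∈ (Submodule.span ℂ (Set.range (fourier (T := 2 * Real.pi)))).topologicalClosure := by
    rw [span_fourier_closure_eq_top]; trivial
  have h2 : g ∈ closure ((Submodule.span ℂ (Set.range (fourier (T := 2 * Real.pi))) :
      Submodule ℂ C(AddCircle (2 * Real.pi), ℂ)) : Set C(AddCircle (2 * Real.pi), ℂ)) := h1
  obtain ⟨q, hq, hfq⟩ := Metric.mem_closure_iff.1 h2 ε hε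
  obtain ⟨P, hP⟩ := span_re q hq 1
  refine ⟨P, fun t => ?_⟩
  have h4 : ‖(g - q) (t : AddCircle (2 * Real.pi))‖ ≤ ‖g - q‖ := (g - q).norm_coe_le_norm _
  rw [dist_eq_norm] at hfq
  have h5 : (g - q) (t : AddCircle (2 * Real.pi)) = (f t : ℂ) - q (t : AddCircle (2 * Real.pi)) := by
    have : U (t : AddCircle (2 * Real.pi)) = f t := hp.lift_coe t
    rw [← this]
    rfl
  have h3 := hP t
  rw [one_mul] at h3
  have h6 : (P.eval (pt 1 t)).re - f t = -(((f t : ℂ) - q (t : AddCircle (2 * Real.pi))).re) := by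
    rw [Complex.sub_re, Complex.ofReal_re, h3]; ring
  rw [h6, abs_neg, ← h5]
  exact (Complex.abs_re_le_norm _).trans (h4.trans hfq.le)

end Pool.Agent.TH790.SF
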