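import Pool.Agent.TH790.SF.D

set_option autoImplicit false

/-! # The exponential inequality -/

namespace Pool.Agent.TH790.SF

open Complex Metric Set Filter Topology MeasureTheory
open Pool.Agent.W677.Mar

attribute [local irreducible] PK DD JJ SS poissonKernel pt

theorem mean_re {P : ℂ → ℂ} (hP : Differentiable ℂ P) :
    ∫ φ in (0 : ℝ)..(2 * Real.pi), (P (pt 1 φ)).re = 2 * Real.pi * (P 0).re := by
  have hpi := Real.pi_pos
  have hD : DiffContOnCl ℂ P (ball 0 |1|) := hP.diffContOnCl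
  have h1 := hD.circleAverage
  have hcP : Continuous fun φ : ℝ => P (pt 1 φ) := hP.continuous.comp (continuous_pt 1)
  unfold Real.circleAverage at h1
  have h2 := congrArg Complex.re h1
  have e1 : (∫ φ in (0 : ℝ)..(2 * Real.pi), P (circleMap 0 1 φ)) =
      ∫ φ in (0 : ℝ)..(2 * Real.pi), P (pt 1 φ) := by
    refine intervalIntegral.integral_congr fun φ _ => ?_
    simp only [pt]
  rw [e1, Complex.real_smul, Complex.re_ofReal_mul] at h2
  have e2 : (∫ φ in (0 : ℝ)..(2 * Real.pi), P (pt 1 φ)).re =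
      ∫ φ in (0 : ℝ)..(2 * Real.pi), (P (pt 1 φ)).re := by
    have h3 : (∫ φ in (0 : ℝ)..(2 * Real.pi), Complex.reCLM (P (pt 1 φ))) =
        Complex.reCLM (∫ φ in (0 : ℝ)..(2 * Real.pi), P (pt 1 φ)) :=
      ContinuousLinearMap.intervalIntegral_comp_comm _ (hcP.intervalIntegrable 0 (2 * Real.pi))
    simp only [Complex.reCLM_apply] at h3
    exact h3.symm
  rw [e2] at h2
  rw [← h2, ← mul_assoc, mul_inv_cancel₀ (by positivity), one_mul]

/-- a lower bound for the real part on the unit circle extends to the disc -/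
theorem re_lower {P : ℂ → ℂ} (hP : Differentiable ℂ P) {c : ℝ}
    (hc : ∀ φ : ℝ, c ≤ (P (pt 1 φ)).re) : ∀ w ∈ closedBall (0 : ℂ) 1, c ≤ (P w).re := by
  intro w hw
  have h1 : DiffContOnCl ℂ (fun w => Complex.exp (-(P w))) (ball (0 : ℂ) 1) :=
    hP.neg.cexp.diffContOnCl
  have h2 : ∀ z ∈ frontier (ball (0 : ℂ) 1), ‖Complex.exp (-(P z))‖ ≤ Real.exp (-c) := by
    intro z hz
    rw [frontier_ball (0 : ℂ) one_ne_zero, mem_sphere_zero_iff_norm] at hz
    have h3 : z = pt 1 (arg z) := by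
      rw [pt_exp]
      have := Complex.norm_mul_exp_arg_mul_I z
      rw [hz, ofReal_one, one_mul] at this
      exact this.symm
    rw [Complex.norm_exp, neg_re, Real.exp_le_exp, h3]
    exact neg_le_neg (hc _)
  have h4 := Complex.norm_le_of_forall_mem_frontier_norm_le isBounded_ball h1 h2
    (by rw [closure_ball (0 : ℂ) one_ne_zero]; exact hw)
  rw [Complex.norm_exp, neg_re, Real.exp_le_exp] at h4
  linarith

theorem pos_ball {P : ℂ → ℂ} (hP : Differentiable ℂ P) {c : ℝ} (hc0 : 0 < c)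
    (hc : ∀ φ : ℝ, c ≤ (P (pt 1 φ)).re) : ∃ R₂ : ℝ, 1 < R₂ ∧ ∀ w ∈ ball (0 : ℂ) R₂, 0 < (P w).re := by
  have h1 : IsOpen {w : ℂ | 0 < (P w).re} :=
    isOpen_lt continuous_const (continuous_re.comp hP.continuous)
  have h2 : closedBall (0 : ℂ) 1 ⊆ {w : ℂ | 0 < (P w).re} := fun w hw =>
    hc0.trans_le (re_lower hP hc w hw)
  obtain ⟨δ, hδ, h3⟩ := (isCompact_closedBall (0 : ℂ) 1).exists_thickening_subset_open h1 h2
  refine ⟨1 + δ, by linarith, fun w hw => h3 ?_⟩
  rw [thickening_closedBall hδ zero_le_one]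
  rwa [add_comm] at hw

section

variable {F P : ℂ → ℂ} {R₁ M : ℝ}

theorem KP_meas (hP : Continuous P) : StronglyMeasurable fun s : ℝ =>
    ∫ θ in (0 : ℝ)..(2 * Real.pi), DD F s θ * (P (pt (Real.exp s) θ)).re := by
  have h0 : Measurable fun q : ℝ × ℝ => DD F q.1 q.2 :=
    (DD_meas F).comp ((measurable_fst.prodMk (measurable_const (a := (0 : ℝ)))).prodMk measurable_snd)
  have h0' : Measurable fun q : ℝ × ℝ => (P (pt (Real.exp q.1) q.2)).re :=
    (continuous_re.comp (hP.comp pt_cont2)).measurable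
  have h1 : StronglyMeasurable (fun q : ℝ × ℝ => DD F q.1 q.2 * (P (pt (Real.exp q.1) q.2)).re) :=
    (h0.mul h0').stronglyMeasurable
  have h2 := h1.integral_prod_right' (ν := volume.restrict (Ioc 0 (2 * Real.pi)))
  have e : (fun s : ℝ => ∫ θ in (0 : ℝ)..(2 * Real.pi), DD F s θ * (P (pt (Real.exp s) θ)).re) =
      fun x : ℝ => ∫ y in Ioc 0 (2 * Real.pi),
      DD F (x, y).1 (x, y).2 * (P (pt (Real.exp (x, y).1) (x, y).2)).re := by
    funext q
    rw [intervalIntegral.integral_of_le tp_pos.le]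
  rw [e]
  exact h2

theorem KP_bound
    (hM : ∀ w ∈ closedBall (0 : ℂ) 1, ‖deriv F w‖ ≤ M) {N : ℝ}
    (hN : ∀ w ∈ closedBall (0 : ℂ) 1, ‖P w‖ ≤ N) {s : ℝ} (hs : s < 0) :
    ‖∫ θ in (0 : ℝ)..(2 * Real.pi), DD F s θ * (P (pt (Real.exp s) θ)).re‖ ≤
      (M ^ 2 * Real.exp s ^ 2) * N * (2 * Real.pi) := by
  have hpi := Real.pi_pos
  have h1 : ∀ θ ∈ uIoc (0 : ℝ) (2 * Real.pi), ‖DD F s θ * (P (pt (Real.exp s) θ)).re‖ ≤
      (M ^ 2 * Real.exp s ^ 2) * N := by
    intro θ _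
    rw [norm_mul, Real.norm_of_nonneg (DD_nonneg F s θ)]
    apply mul_le_mul (DD_bound hM hs.le θ) _ (norm_nonneg _) (by positivity)
    refine (Complex.abs_re_le_norm _).trans (hN _ ?_)
    rw [mem_closedBall_zero_iff, norm_pt _ θ (Real.exp_pos s).le]
    exact Real.exp_le_one_iff.2 hs.le
  have h2 := intervalIntegral.norm_integral_le_of_norm_le_const h1
  rwa [sub_zero, abs_of_pos tp_pos] at h2

theorem KP_int
    (hM : ∀ w ∈ closedBall (0 : ℂ) 1, ‖deriv F w‖ ≤ M) (hP : Continuous P) :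
    IntegrableOn (fun s : ℝ => (-s) * ∫ θ in (0 : ℝ)..(2 * Real.pi),
      DD F s θ * (P (pt (Real.exp s) θ)).re) (Iio (0 : ℝ)) := by
  obtain ⟨N, hN⟩ := (isCompact_closedBall (0 : ℂ) 1).exists_bound_of_continuousOn hP.continuousOn
  have hN0 : 0 ≤ N := (norm_nonneg _).trans (hN 0 (by simp))
  have hpi := Real.pi_pos
  refine (int_exp.const_mul (2 * Real.pi * M ^ 2 * N)).mono' ?_ ?_
  · exact (measurable_neg.stronglyMeasurable.mul (KP_meas hP)).aestronglyMeasurable
  · filter_upwards [ae_restrict_mem measurableSet_Iio] with s hs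
    have hs' : s < 0 := hs
    rw [norm_mul, Real.norm_of_nonneg (by linarith : 0 ≤ -s)]
    have h1 := mul_le_mul_of_nonneg_left (KP_bound hM hN hs') (by linarith : 0 ≤ -s)
    have h2 := mul_le_mul_of_nonneg_left (exp_le s) (by positivity : 0 ≤ 2 * Real.pi * M ^ 2 * N)
    calc _ ≤ _ := h1
      _ = 2 * Real.pi * M ^ 2 * N * (-s * Real.exp s ^ 2) := by ring
      _ ≤ _ := h2

/-- the entropy inequality with the square function -/
theorem ent_star (hR : 1 < R₁) (hF : DifferentiableOn ℂ F (ball 0 R₁))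
    (hM : ∀ w ∈ closedBall (0 : ℂ) 1, ‖deriv F w‖ ≤ M) (hP : Differentiable ℂ P) {c : ℝ}
    (hc0 : 0 < c) (hc : ∀ φ : ℝ, c ≤ (P (pt 1 φ)).re) :
    2 * Real.pi * ((P 0).re * Real.log (P 0).re - (F 0).re * (P 0).re) ≤
      ∫ φ in (0 : ℝ)..(2 * Real.pi), (P (pt 1 φ)).re * (Real.log (P (pt 1 φ)).re -
        ((F (pt 1 φ)).re - SS F φ / 2)) := by
  obtain ⟨R₂, hR2, hpos⟩ := pos_ball hP hc0 hc
  set R₃ := min R₁ R₂ with hR3
  have hR3' : 1 < R₃ := lt_min hR hR2
  have hF3 : DifferentiableOn ℂ F (ball 0 R₃) := hF.mono (ball_subset_ball (min_le_left _ _))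
  have hP3 : DifferentiableOn ℂ P (ball 0 R₃) := hP.differentiableOn
  have hpo := pair_out hR3' hF3 hM hP3
  have hT : ∀ a ≤ 0, ∫ s in a..0, (-s) * ∫ θ in (0 : ℝ)..(2 * Real.pi),
      ‖pt (Real.exp s) θ * deriv F (pt (Real.exp s) θ)‖ ^ 2 * (P (pt (Real.exp s) θ)).re ≤
      (∫ φ in (0 : ℝ)..(2 * Real.pi), SS F φ * (P (pt 1 φ)).re) / 2 := by
    intro a ha
    have e1 : (fun s : ℝ => (-s) * ∫ θ in (0 : ℝ)..(2 * Real.pi),
        ‖pt (Real.exp s) θ * deriv F (pt (Real.exp s) θ)‖ ^ 2 * (P (pt (Real.exp s) θ)).re) =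
        fun s : ℝ => (-s) * ∫ θ in (0 : ℝ)..(2 * Real.pi),
          DD F s θ * (P (pt (Real.exp s) θ)).re := by
      funext s
      simp only [DD]
    rw [e1, hpo, intervalIntegral.integral_of_le ha, integral_Ioc_eq_integral_Ioo,
      mul_div_cancel_left₀ _ (two_ne_zero : (2 : ℝ) ≠ 0)]
    apply setIntegral_mono_set (KP_int hM hP.continuous)
    · filter_upwards [ae_restrict_mem measurableSet_Iio] with s hs
      have hs' : s < 0 := hs
      apply mul_nonneg (by linarith)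
      apply intervalIntegral.integral_nonneg tp_pos.le
      intro θ _
      apply mul_nonneg (DD_nonneg F s θ)
      refine (hc0.trans_le (re_lower hP hc _ ?_)).le
      rw [mem_closedBall_zero_iff, norm_pt _ θ (Real.exp_pos s).le]
      exact Real.exp_le_one_iff.2 hs'.le
    · exact Eventually.of_forall fun s hs => hs.2
  have hmain := ent_main hR3' hF3 hP3 (fun w hw => hpos w (ball_subset_ball (min_le_right _ _) hw)) hT
  have hcP : Continuous fun φ : ℝ => (P (pt 1 φ)).re :=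
    continuous_re.comp (hP.continuous.comp (continuous_pt 1))
  have hcF : Continuous fun φ : ℝ => (F (pt 1 φ)).re := by
    apply continuous_re.comp
    apply hF.continuousOn.comp_continuous (continuous_pt 1)
    intro φ
    rw [mem_ball_zero_iff, norm_pt 1 φ zero_le_one]
    exact hR
  have hcS : Continuous (SS F) := SS_cont hR hF hM
  have hcL : Continuous fun φ : ℝ => Real.log (P (pt 1 φ)).re :=
    hcP.log fun φ => (hc0.trans_le (hc φ)).ne'
  have e2 : (∫ φ in (0 : ℝ)..(2 * Real.pi), (P (pt 1 φ)).re * (Real.log (P (pt 1 φ)).re -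
        ((F (pt 1 φ)).re - SS F φ / 2))) =
      (∫ θ in (0 : ℝ)..(2 * Real.pi), ((P (pt 1 θ)).re * Real.log (P (pt 1 θ)).re -
        (F (pt 1 θ)).re * (P (pt 1 θ)).re)) +
      (∫ φ in (0 : ℝ)..(2 * Real.pi), SS F φ * (P (pt 1 φ)).re) / 2 := by
    rw [← intervalIntegral.integral_div, ← intervalIntegral.integral_add]
    · refine intervalIntegral.integral_congr fun φ _ => ?_
      ring
    · exact ((hcP.mul hcL).sub (hcF.mul hcP)).intervalIntegrable _ _
    · exact ((hcS.mul hcP).div_const 2).intervalIntegrable _ _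
  rw [e2]
  linarith

end

end Pool.Agent.TH790.SF
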