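import Pool.Agent.TH790.SF.E

set_option autoImplicit false

/-! # The exponential inequality -/

namespace Pool.Agent.TH790.SF

open Complex Metric Set Filter Topology MeasureTheory
open Pool.Agent.W677.Mar

attribute [local irreducible] PK DD JJ SS poissonKernel pt

theorem log_aux {n f ε c : ℝ} (hn : 0 < n) (hε : 0 < ε) (hc : c ≤ Real.exp f) (hεc : ε ≤ c / 2)
    (h : |n - Real.exp f| ≤ ε) : n * (Real.log n - f) ≤ 2 * ε := by
  have hν := Real.exp_pos f
  obtain ⟨h1, h2⟩ := abs_le.1 h
  have h3 : Real.log n - f = Real.log (n / Real.exp f) := by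
    rw [Real.log_div hn.ne' hν.ne', Real.log_exp]
  have h4 : Real.log (n / Real.exp f) ≤ n / Real.exp f - 1 :=
    Real.log_le_sub_one_of_pos (div_pos hn hν)
  rcases le_total n (Real.exp f) with h5 | h5
  · have h6 : n / Real.exp f ≤ 1 := (div_le_one hν).2 h5
    rw [h3]
    have : n * Real.log (n / Real.exp f) ≤ 0 := mul_nonpos_of_nonneg_of_nonpos hn.le (by linarith)
    linarith
  · have h6 : n / Real.exp f - 1 = (n - Real.exp f) / Real.exp f := by
      field_simp
    have h7 : n * (Real.log n - f) ≤ n * ((n - Real.exp f) / Real.exp f) := by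
      rw [h3, ← h6]
      exact mul_le_mul_of_nonneg_left h4 hn.le
    refine h7.trans ?_
    rw [← mul_div_assoc, div_le_iff₀ hν]
    nlinarith

theorem per_lower {ν : ℝ → ℝ} (hc : Continuous ν) (hp : Function.Periodic ν (2 * Real.pi))
    (h0 : ∀ φ, 0 < ν φ) : ∃ c : ℝ, 0 < c ∧ ∀ φ, c ≤ ν φ := by
  obtain ⟨x, hx, hmin⟩ := (isCompact_Icc (a := (0 : ℝ)) (b := 2 * Real.pi)).exists_isMinOn
    (nonempty_Icc.2 tp_pos.le) hc.continuousOn
  refine ⟨ν x, h0 x, fun φ => ?_⟩
  obtain ⟨y, hy, he⟩ := hp.exists_mem_Ico₀ tp_pos φ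
  rw [he]
  exact hmin (Ico_subset_Icc_self hy)

section

variable {F : ℂ → ℂ} {R₁ M : ℝ}

/-- **the exponential inequality with the square function** -/
theorem star (hR : 1 < R₁) (hF : DifferentiableOn ℂ F (ball 0 R₁))
    (hM : ∀ w ∈ closedBall (0 : ℂ) 1, ‖deriv F w‖ ≤ M) :
    ∫ φ in (0 : ℝ)..(2 * Real.pi), Real.exp ((F (pt 1 φ)).re - SS F φ / 2) ≤
      2 * Real.pi * Real.exp (F 0).re := by
  have hpi := Real.pi_pos
  have hcF : Continuous fun φ : ℝ => (F (pt 1 φ)).re := by
    apply continuous_re.comp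
    apply hF.continuousOn.comp_continuous (continuous_pt 1)
    intro φ
    rw [mem_ball_zero_iff, norm_pt 1 φ zero_le_one]
    exact hR
  have hcS : Continuous (SS F) := SS_cont hR hF hM
  obtain ⟨f, hf⟩ : ∃ f : ℝ → ℝ, ∀ φ, f φ = (F (pt 1 φ)).re - SS F φ / 2 := ⟨_, fun _ => rfl⟩
  have hfe : f = fun φ => (F (pt 1 φ)).re - SS F φ / 2 := funext hf
  have hfc : Continuous f := by
    rw [hfe]
    exact hcF.sub (hcS.div_const 2)
  have hfp : Function.Periodic f (2 * Real.pi) := by
    intro φ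
    rw [hf, hf, SS_per, pt_periodic 1 φ]
  have hνc : Continuous fun φ => Real.exp (f φ) := Real.continuous_exp.comp hfc
  have hνp : Function.Periodic (fun φ => Real.exp (f φ)) (2 * Real.pi) := fun φ => by
    simp only [hfp φ]
  obtain ⟨c, hc0, hc⟩ := per_lower hνc hνp fun φ => Real.exp_pos _
  simp only [← hf]
  set μ : ℝ := (∫ φ in (0 : ℝ)..(2 * Real.pi), Real.exp (f φ)) / (2 * Real.pi) with hμ
  have key : ∀ ε : ℝ, 0 < ε → ε ≤ c / 2 → ∃ m : ℝ, |m - μ| ≤ ε ∧
      m * Real.log m - (F 0).re * m ≤ 2 * ε := by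
    intro ε hε hεc
    obtain ⟨P, hP⟩ := trig hνc hνp hε
    have hPd : Differentiable ℂ fun w => P.eval w := P.differentiable
    have hn : ∀ φ : ℝ, c / 2 ≤ (P.eval (pt 1 φ)).re := fun φ => by
      have h1 := (abs_le.1 (hP φ)).1
      have h2 := hc φ
      linarith
    have hmain := ent_star (P := fun w => P.eval w) hR hF hM hPd (half_pos hc0) hn
    have hmean := mean_re hPd
    have hcP : Continuous fun φ : ℝ => (P.eval (pt 1 φ)).re :=
      continuous_re.comp (hPd.continuous.comp (continuous_pt 1))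
    have hcL : Continuous fun φ : ℝ => Real.log (P.eval (pt 1 φ)).re :=
      hcP.log fun φ => ((half_pos hc0).trans_le (hn φ)).ne'
    refine ⟨(P.eval 0).re, ?_, ?_⟩
    · have h1 : 2 * Real.pi * ((P.eval 0).re - μ) = ∫ φ in (0 : ℝ)..(2 * Real.pi),
          ((P.eval (pt 1 φ)).re - Real.exp (f φ)) := by
        rw [intervalIntegral.integral_sub (hcP.intervalIntegrable _ _) (hνc.intervalIntegrable _ _),
          hmean, hμ]
        field_simp
      have h2 : ‖∫ φ in (0 : ℝ)..(2 * Real.pi), ((P.eval (pt 1 φ)).re - Real.exp (f φ))‖ ≤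
          ε * |2 * Real.pi - 0| :=
        intervalIntegral.norm_integral_le_of_norm_le_const fun φ _ => hP φ
      rw [← h1, norm_mul, Real.norm_of_nonneg tp_pos.le, sub_zero, abs_of_pos tp_pos,
        mul_comm ε] at h2
      exact le_of_mul_le_mul_left h2 tp_pos
    · simp only [← hf] at hmain
      have h1 : ∫ φ in (0 : ℝ)..(2 * Real.pi), (P.eval (pt 1 φ)).re *
          (Real.log (P.eval (pt 1 φ)).re - f φ) ≤ ∫ φ in (0 : ℝ)..(2 * Real.pi), 2 * ε := by
        apply intervalIntegral.integral_mono_on tp_pos.le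
        · exact (hcP.mul (hcL.sub hfc)).intervalIntegrable _ _
        · exact continuous_const.intervalIntegrable _ _
        · intro φ _
          exact log_aux ((half_pos hc0).trans_le (hn φ)) hε (hc φ) hεc (hP φ)
      rw [intervalIntegral.integral_const, sub_zero, smul_eq_mul] at h1
      exact le_of_mul_le_mul_left (hmain.trans h1) tp_pos
  have hμ0 : 0 < μ := by
    apply div_pos _ tp_pos
    apply intervalIntegral.intervalIntegral_pos_of_pos (hνc.intervalIntegrable _ _) _ tp_pos
    intro φ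
    exact Real.exp_pos _
  have hg : Continuous fun x : ℝ => x * Real.log x - (F 0).re * x :=
    Real.continuous_mul_log.sub (continuous_const.mul continuous_id)
  have h0 : μ * Real.log μ - (F 0).re * μ ≤ 0 := by
    by_contra h
    have h : 0 < μ * Real.log μ - (F 0).re * μ := not_le.1 h
    obtain ⟨δ, hδ, h1⟩ := Metric.continuousAt_iff.1 (hg.continuousAt (x := μ))
      ((μ * Real.log μ - (F 0).re * μ) / 2) (half_pos h)
    set e : ℝ := min (c / 2) (min (δ / 2) ((μ * Real.log μ - (F 0).re * μ) / 4)) with he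
    have he0 : 0 < e := lt_min (half_pos hc0) (lt_min (half_pos hδ) (by linarith))
    obtain ⟨m, hm1, hm2⟩ := key e he0 (min_le_left _ _)
    have h2 : e ≤ δ / 2 := (min_le_right _ _).trans (min_le_left _ _)
    have h3 : e ≤ (μ * Real.log μ - (F 0).re * μ) / 4 := (min_le_right _ _).trans (min_le_right _ _)
    have h4 := h1 (x := m) (by rw [Real.dist_eq]; linarith)
    rw [Real.dist_eq] at h4
    have h5 := (abs_lt.1 h4).1
    linarith
  have h1 : Real.log μ ≤ (F 0).re := by
    have h2 : μ * (Real.log μ - (F 0).re) ≤ 0 := by linarith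
    have h3 := nonpos_of_mul_nonpos_right h2 hμ0
    linarith
  have h2 : μ ≤ Real.exp (F 0).re := (Real.log_le_iff_le_exp hμ0).1 h1
  rw [hμ, div_le_iff₀ tp_pos] at h2
  linarith

end

end Pool.Agent.TH790.SF
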