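import Pool.Agent.TH790.SF.F
import Pool.Agent.W677.MarGa

set_option autoImplicit false

/-! # Gaussian averages with a variable variance -/

namespace Pool.Agent.TH790.SF

open Complex Metric Set Filter Topology MeasureTheory
open Pool.Agent.W677.Mar

/-- Gaussian averaging of exponential moments, with a variable variance -/
theorem gauss_avg2 {h : ℝ → ℂ} (hc : Continuous h) {M : ℝ} (hM : ∀ θ, ‖h θ‖ ≤ M) {g : ℝ → ℝ}
    (gc : Continuous g) (g0 : ∀ θ, 0 ≤ g θ) {b : ℝ} (hb : 0 < b)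
    (hB : ∀ t : ℂ, ∫ θ in (0 : ℝ)..(2 * Real.pi), Real.exp (((starRingEnd ℂ) t * h θ).re -
      ‖t‖ ^ 2 * g θ) ≤ 2 * Real.pi) :
    ∫ θ in (0 : ℝ)..(2 * Real.pi), b / (b + g θ) * Real.exp (‖h θ‖ ^ 2 / (4 * (b + g θ))) ≤
      2 * Real.pi := by
  have hpi := Real.pi_pos
  have hM0 : 0 ≤ M := (norm_nonneg _).trans (hM 0)
  have hbg : ∀ θ, 0 < b + g θ := fun θ => by have := g0 θ; linarith
  set μ : Measure ℝ := volume.restrict (Ioc 0 (2 * Real.pi)) with hμ
  set f : ℝ → ℂ → ℝ := fun θ t => Real.exp (-(b + g θ) * ‖t‖ ^ 2 + ((starRingEnd ℂ) t * h θ).re) with hf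
  have hfc : Continuous (Function.uncurry f) := by
    apply Real.continuous_exp.comp
    apply Continuous.add
    · exact (continuous_const.add (gc.comp continuous_fst)).neg.mul (continuous_snd.norm.pow 2)
    · exact continuous_re.comp ((continuous_conj.comp continuous_snd).mul (hc.comp continuous_fst))
  have hint : Integrable (Function.uncurry f) (μ.prod volume) := by
    have h0 := (gauss0 (by linarith : 0 < b / 2)).1
    have h1 : Integrable (fun q : ℝ × ℂ => Real.exp (-(b / 2) * ‖q.2‖ ^ 2)) (μ.prod volume) :=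
      Integrable.comp_snd h0 μ
    refine (h1.const_mul (Real.exp (M ^ 2 / (2 * b)))).mono' hfc.aestronglyMeasurable ?_
    refine Eventually.of_forall fun q => ?_
    obtain ⟨θ, t⟩ := q
    simp only [hf, Function.uncurry_apply_pair]
    rw [Real.norm_of_nonneg (Real.exp_pos _).le, ← Real.exp_add]
    apply Real.exp_le_exp.2
    have h2 : ((starRingEnd ℂ) t * h θ).re ≤ ‖t‖ * M := by
      refine (re_le_norm _).trans ?_
      rw [norm_mul, RCLike.norm_conj]
      exact mul_le_mul_of_nonneg_left (hM θ) (norm_nonneg t)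
    have h3 : 0 ≤ (b * ‖t‖ - M) ^ 2 / (2 * b) := by positivity
    have h4 : (b * ‖t‖ - M) ^ 2 / (2 * b) = b / 2 * ‖t‖ ^ 2 - ‖t‖ * M + M ^ 2 / (2 * b) := by
      field_simp
      ring
    have h5 : 0 ≤ g θ * ‖t‖ ^ 2 := mul_nonneg (g0 θ) (sq_nonneg _)
    rw [h4] at h3
    linarith
  have hpt : ∀ θ, b / (b + g θ) * Real.exp (‖h θ‖ ^ 2 / (4 * (b + g θ))) =
      b / Real.pi * ∫ t : ℂ, f θ t := by
    intro θ
    simp only [hf]
    rw [(gauss1 (hbg θ) (h θ)).2]
    have := (hbg θ).ne'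
    field_simp
  have h1 : ∫ θ in (0 : ℝ)..(2 * Real.pi), b / (b + g θ) *
      Real.exp (‖h θ‖ ^ 2 / (4 * (b + g θ))) = b / Real.pi * ∫ t : ℂ, ∫ θ, f θ t ∂μ := by
    rw [intervalIntegral.integral_of_le (by positivity)]
    simp only [hpt]
    rw [integral_const_mul]
    congr 1
    exact integral_integral_swap hint
  rw [h1]
  have hg0 := gauss0 hb
  have h3 : ∫ t : ℂ, ∫ θ, f θ t ∂μ ≤ ∫ t : ℂ, Real.exp (-b * ‖t‖ ^ 2) * (2 * Real.pi) := by
    apply integral_mono hint.integral_prod_right (hg0.1.mul_const _)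
    intro t
    show ∫ θ, f θ t ∂μ ≤ _
    have h2 : ∫ θ, f θ t ∂μ = Real.exp (-b * ‖t‖ ^ 2) *
        ∫ θ in (0 : ℝ)..(2 * Real.pi), Real.exp (((starRingEnd ℂ) t * h θ).re - ‖t‖ ^ 2 * g θ) := by
      rw [intervalIntegral.integral_of_le (by positivity), ← integral_const_mul]
      refine integral_congr_ae (Eventually.of_forall fun θ => ?_)
      simp only [hf]
      rw [← Real.exp_add]
      congr 1
      ring
    rw [h2]
    exact mul_le_mul_of_nonneg_left (hB t) (Real.exp_pos _).le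
  rw [integral_mul_const, hg0.2] at h3
  have h4 := mul_le_mul_of_nonneg_left h3 (by positivity : 0 ≤ b / Real.pi)
  refine h4.trans (le_of_eq ?_)
  field_simp

attribute [local irreducible] PK DD JJ SS poissonKernel pt

section

variable {F : ℂ → ℂ} {R₁ M : ℝ}

theorem DD_mul (F : ℂ → ℂ) (c : ℂ) (s θ : ℝ) : DD (fun w => c * F w) s θ = ‖c‖ ^ 2 * DD F s θ := by
  rw [DD, DD, deriv_const_mul_field, norm_mul, norm_mul, norm_mul]
  ring

theorem SS_mul (F : ℂ → ℂ) (c : ℂ) (φ : ℝ) : SS (fun w => c * F w) φ = ‖c‖ ^ 2 * SS F φ := by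
  have h : ∀ s : ℝ, JJ (fun w => c * F w) s φ = ‖c‖ ^ 2 * JJ F s φ := by
    intro s
    rw [JJ, JJ, ← intervalIntegral.integral_const_mul]
    refine intervalIntegral.integral_congr fun θ _ => ?_
    simp only [DD_mul]
    ring
  rw [SS, SS]
  simp only [h]
  have h2 : ∀ s : ℝ, (-s) * (‖c‖ ^ 2 * JJ F s φ) = ‖c‖ ^ 2 * ((-s) * JJ F s φ) := fun s => by ring
  simp only [h2]
  rw [integral_const_mul]
  ring

/-- **the self-normalised inequality in the disc** -/
theorem disc_main (hR : 1 < R₁) (hF : DifferentiableOn ℂ F (ball 0 R₁)) (h0 : F 0 = 0) {b : ℝ}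
    (hb : 0 < b) :
    ∫ φ in (0 : ℝ)..(2 * Real.pi), b / (b + SS F φ / 2) *
      Real.exp (‖F (pt 1 φ)‖ ^ 2 / (4 * (b + SS F φ / 2))) ≤ 2 * Real.pi := by
  have hd : ContinuousOn (deriv F) (closedBall (0 : ℂ) 1) :=
    ((hF.deriv isOpen_ball).continuousOn).mono (closedBall_subset_ball hR)
  obtain ⟨M, hM⟩ := (isCompact_closedBall (0 : ℂ) 1).exists_bound_of_continuousOn hd
  obtain ⟨N, hN⟩ := (isCompact_closedBall (0 : ℂ) 1).exists_bound_of_continuousOn
    (hF.continuousOn.mono (closedBall_subset_ball hR))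
  have hc : Continuous fun φ : ℝ => F (pt 1 φ) := by
    apply hF.continuousOn.comp_continuous (continuous_pt 1)
    intro φ
    rw [mem_ball_zero_iff, norm_pt 1 φ zero_le_one]
    exact hR
  have hcS : Continuous fun φ => SS F φ / 2 := (SS_cont hR hF hM).div_const 2
  apply gauss_avg2 hc (M := N) (fun θ => hN _ ?_) hcS (fun θ => by
    have := SS_nonneg F θ
    positivity) hb
  · intro t
    have hFt : DifferentiableOn ℂ (fun w => (starRingEnd ℂ) t * F w) (ball 0 R₁) := hF.const_mul _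
    have hMt : ∀ w ∈ closedBall (0 : ℂ) 1, ‖deriv (fun w => (starRingEnd ℂ) t * F w) w‖ ≤
        ‖t‖ * M := by
      intro w hw
      rw [deriv_const_mul_field, norm_mul, RCLike.norm_conj]
      exact mul_le_mul_of_nonneg_left (hM w hw) (norm_nonneg t)
    have h1 := star hR hFt hMt
    simp only [h0, mul_zero, zero_re, Real.exp_zero, mul_one, SS_mul, RCLike.norm_conj] at h1
    have h2 : ∀ φ : ℝ, ‖t‖ ^ 2 * SS F φ / 2 = ‖t‖ ^ 2 * (SS F φ / 2) := fun φ => by ring
    simp only [h2] at h1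
    exact h1
  · rw [mem_closedBall_zero_iff, norm_pt 1 θ zero_le_one]

end

end Pool.Agent.TH790.SF
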