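import Pool.Agent.TH790.SF.G
import Pool.Agent.W677.MarF3

set_option autoImplicit false

/-! # Transfer to the exterior of the disc -/

namespace Pool.Agent.TH790.SF

open Complex Metric Set Filter Topology MeasureTheory
open Pool.Agent.W677.Mar

/-- the square function of the exterior -/
noncomputable def gst (h : ℂ → ℂ) (R φ : ℝ) : ℝ :=
  (1 / Real.pi) * ∫ s in Ioi (0 : ℝ), s * ∫ θ in (0 : ℝ)..(2 * Real.pi),
    ‖circleMap 0 (R * Real.exp s) θ * deriv h (circleMap 0 (R * Real.exp s) θ)‖ ^ 2 *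
      (((R * Real.exp s) ^ 2 - R ^ 2) / ‖circleMap 0 (R * Real.exp s) θ - circleMap 0 R φ‖ ^ 2)

/-- the function in disc coordinates -/
noncomputable def FF (h : ℂ → ℂ) (R : ℝ) (w : ℂ) : ℂ := hat h 0 (w / R)

theorem dist_sq2 (a b θ φ : ℝ) : ‖pt a θ - pt b φ‖ ^ 2 =
    a ^ 2 + b ^ 2 - 2 * a * b * Real.cos (θ - φ) := by
  rw [← Complex.normSq_eq_norm_sq, Complex.normSq_apply]
  simp only [sub_re, sub_im, pt_re, pt_im, Real.cos_sub]
  have h1 := Real.sin_sq_add_cos_sq φ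
  have h2 := Real.sin_sq_add_cos_sq θ
  linear_combination b ^ 2 * h1 + a ^ 2 * h2

theorem flip {f : ℝ → ℝ} (hf : Function.Periodic f (2 * Real.pi)) :
    ∫ θ in (0 : ℝ)..(2 * Real.pi), f (-θ) = ∫ θ in (0 : ℝ)..(2 * Real.pi), f θ := by
  rw [intervalIntegral.integral_comp_neg, neg_zero]
  have h := hf.intervalIntegral_add_eq (-(2 * Real.pi)) 0
  rw [neg_add_cancel, zero_add] at h
  exact h

section

variable {h : ℂ → ℂ} {R : ℝ}

theorem div_mem (hR : 1 < R) {w : ℂ} (hw : w ∈ ball (0 : ℂ) R) : w / (R : ℂ) ∈ ball (0 : ℂ) 1 := by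
  have hR0 : 0 < R := by linarith
  rw [mem_ball_zero_iff] at hw ⊢
  rw [norm_div, Complex.norm_real, Real.norm_of_nonneg hR0.le, div_lt_one hR0]
  exact hw

theorem FF_diff (hh : Hol h 0) (hR : 1 < R) : DifferentiableOn ℂ (FF h R) (ball 0 R) := by
  apply (hat_diff hh).comp (differentiableOn_id.div_const (R : ℂ))
  intro w hw
  exact div_mem hR hw

theorem FF_zero (h : ℂ → ℂ) (R : ℝ) : FF h R 0 = 0 := by
  rw [FF, zero_div, hat_zero]

theorem FF_pt (hR : 1 < R) (h : ℂ → ℂ) (φ : ℝ) : FF h R (pt 1 (-φ)) = h (pt R φ) := by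
  have hR0 : (R : ℂ) ≠ 0 := by
    have : R ≠ 0 := by linarith
    exact_mod_cast this
  have h1 : pt 1 (-φ) / (R : ℂ) = (pt R φ)⁻¹ := by
    rw [pt_eq R φ, pt_exp, pt_exp, mul_inv, ← Complex.exp_neg]
    push_cast
    rw [neg_mul]
    field_simp
  have h2 : (pt R φ)⁻¹ ≠ 0 := by
    apply inv_ne_zero
    rw [pt_eq R φ, pt_exp]
    exact mul_ne_zero hR0 (Complex.exp_ne_zero _)
  rw [FF, h1, hat_ne _ _ h2, inv_inv]

theorem FF_deriv (hh : Hol h 0) (hR : 1 < R) {s : ℝ} (hs : 0 < s) (θ : ℝ) :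
    pt (Real.exp (-s)) (-θ) * deriv (FF h R) (pt (Real.exp (-s)) (-θ)) =
      -(pt (R * Real.exp s) θ * deriv h (pt (R * Real.exp s) θ)) := by
  have hR0 : (R : ℂ) ≠ 0 := by
    have : R ≠ 0 := by linarith
    exact_mod_cast this
  have hw : pt (Real.exp (-s)) (-θ) ∈ ball (0 : ℂ) R := by
    rw [mem_ball_zero_iff, norm_pt _ _ (Real.exp_pos _).le]
    have : Real.exp (-s) < 1 := Real.exp_lt_one_iff.2 (by linarith)
    linarith
  have hv := div_mem hR hw
  set w : ℂ := pt (Real.exp (-s)) (-θ) with hwd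
  have hw0 : w ≠ 0 := by
    rw [← norm_pos_iff, hwd, norm_pt _ _ (Real.exp_pos _).le]
    exact Real.exp_pos _
  have hz : (w / (R : ℂ))⁻¹ = pt (R * Real.exp s) θ := by
    rw [hwd, pt_eq (Real.exp (-s)), pt_eq (R * Real.exp s), pt_exp, pt_exp, inv_div, Real.exp_neg]
    push_cast
    rw [neg_mul, Complex.exp_neg]
    have := Complex.exp_ne_zero (s : ℂ)
    have := Complex.exp_ne_zero ((θ : ℂ) * I)
    field_simp
  have h1 : HasDerivAt (FF h R) (deriv (hat h 0) (w / R) * (1 / R)) w := by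
    have h2 : HasDerivAt (hat h 0) (deriv (hat h 0) (w / R)) (w / R) :=
      ((hat_diff hh).differentiableAt (isOpen_ball.mem_nhds hv)).hasDerivAt
    exact h2.comp w ((hasDerivAt_id w).div_const (R : ℂ))
  rw [h1.deriv, ← hz, ← hat_deriv hh hv (div_ne_zero hw0 hR0)]
  field_simp

theorem DD_ext (hh : Hol h 0) (hR : 1 < R) {s : ℝ} (hs : 0 < s) (θ : ℝ) :
    DD (FF h R) (-s) (-θ) = ‖circleMap 0 (R * Real.exp s) θ *
      deriv h (circleMap 0 (R * Real.exp s) θ)‖ ^ 2 := by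
  rw [DD, FF_deriv hh hR hs, norm_neg]
  rfl

theorem PK_ext (hR : 1 < R) (s θ φ : ℝ) : PK (-s) (-θ) (-φ) =
    ((R * Real.exp s) ^ 2 - R ^ 2) / ‖circleMap 0 (R * Real.exp s) θ - circleMap 0 R φ‖ ^ 2 := by
  have hR0 : 0 < R := by linarith
  have he := Real.exp_pos s
  have h1 := dist_sq2 (R * Real.exp s) R θ φ
  have h2 := dist_sq (Real.exp (-s)) (-θ) (-φ)
  have h3 : Real.cos (-φ - -θ) = Real.cos (θ - φ) := by
    congr 1
    ring
  rw [PK_eq, h2, h3]
  unfold pt at h1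
  rw [h1, Real.exp_neg]
  have e1 : (R * Real.exp s) ^ 2 + R ^ 2 - 2 * (R * Real.exp s) * R * Real.cos (θ - φ) =
      R ^ 2 * Real.exp s ^ 2 * (1 + (Real.exp s)⁻¹ ^ 2 - 2 * (Real.exp s)⁻¹ * Real.cos (θ - φ)) := by
    field_simp
  have e2 : (R * Real.exp s) ^ 2 - R ^ 2 = R ^ 2 * Real.exp s ^ 2 * (1 - (Real.exp s)⁻¹ ^ 2) := by
    field_simp
  rw [e1, e2, mul_div_mul_left _ _ (by positivity)]

theorem DD_per (F : ℂ → ℂ) (s : ℝ) : Function.Periodic (DD F s) (2 * Real.pi) := by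
  intro θ
  unfold DD
  rw [pt_periodic]

theorem PK_per (s φ : ℝ) : Function.Periodic (fun θ => PK s θ φ) (2 * Real.pi) := by
  intro θ
  unfold PK
  simp only
  rw [pt_periodic]

theorem JJ_flip (F : ℂ → ℂ) (s φ : ℝ) :
    JJ F s φ = ∫ θ in (0 : ℝ)..(2 * Real.pi), DD F s (-θ) * PK s (-θ) φ := by
  have hp : Function.Periodic (fun θ => DD F s θ * PK s θ φ) (2 * Real.pi) := by
    intro θ
    have h1 := DD_per F s θ
    have h2 := PK_per s φ θ
    simp only at h2 ⊢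
    rw [h1, h2]
  rw [flip hp, JJ]

/-- **the square function in disc coordinates** -/
theorem gst_eq (hh : Hol h 0) (hR : 1 < R) (φ : ℝ) : gst h R φ = SS (FF h R) (-φ) := by
  rw [gst, SS]
  congr 1
  rw [← integral_Iic_eq_integral_Iio]
  have h1 := integral_comp_neg_Ioi (0 : ℝ) (fun s => (-s) * JJ (FF h R) s (-φ))
  rw [neg_zero] at h1
  rw [← h1]
  refine setIntegral_congr_fun measurableSet_Ioi fun s hs => ?_
  have hs' : 0 < s := hs
  simp only [neg_neg]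
  congr 1
  rw [JJ_flip]
  refine intervalIntegral.integral_congr fun θ _ => ?_
  rw [DD_ext hh hR hs', PK_ext hR]

theorem SS_per' (F : ℂ → ℂ) : Function.Periodic (SS F) (2 * Real.pi) := SS_per F

/-- **the self-normalised inequality in the exterior** -/
theorem ext_main (hh : Hol h 0) (hR : 1 < R) {b : ℝ} (hb : 0 < b) :
    ∫ φ in (0 : ℝ)..(2 * Real.pi), b / (b + gst h R φ / 2) *
      Real.exp (‖h (pt R φ)‖ ^ 2 / (4 * (b + gst h R φ / 2))) ≤ 2 * Real.pi := by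
  have h1 := disc_main hR (FF_diff hh hR) (FF_zero h R) hb
  have hp : Function.Periodic (fun φ => b / (b + SS (FF h R) φ / 2) *
      Real.exp (‖FF h R (pt 1 φ)‖ ^ 2 / (4 * (b + SS (FF h R) φ / 2)))) (2 * Real.pi) := by
    intro φ
    simp only
    rw [SS_per' (FF h R) φ, pt_periodic 1 φ]
  rw [← flip hp] at h1
  simp only [FF_pt hR, ← gst_eq hh hR] at h1
  exact h1

end

end Pool.Agent.TH790.SF
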