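import Pool.Agent.TH790.SF.H
import Pool.Agent.W677.MarK

set_option autoImplicit false

/-! # Bounds of the square function -/

namespace Pool.Agent.TH790.SF

open Complex Metric Set Filter Topology MeasureTheory
open Pool.Agent.W677.Mar

section

attribute [local irreducible] PK DD JJ SS poissonKernel pt

theorem JJ_bound' {F : ℂ → ℂ} {R₁ B : ℝ} (hR : 1 < R₁) (hF : DifferentiableOn ℂ F (ball 0 R₁))
    {s : ℝ} (hs : s < 0) (hB : ∀ θ, DD F s θ ≤ B) (φ : ℝ) : JJ F s φ ≤ 2 * Real.pi * B := by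
  have hcK : Continuous fun θ : ℝ => PK s θ φ := (PK_cont hs).comp (continuous_id.prodMk continuous_const)
  have h1 : JJ F s φ ≤ ∫ θ in (0 : ℝ)..(2 * Real.pi), B * PK s θ φ := by
    rw [JJ]
    apply intervalIntegral.integral_mono_on (by have := Real.pi_pos; positivity)
    · exact ((DD_cont hR hF hs.le).mul hcK).intervalIntegrable _ _
    · exact (continuous_const.mul hcK).intervalIntegrable _ _
    · intro θ _
      exact mul_le_mul_of_nonneg_right (hB θ) (PK_nonneg hs.le θ φ)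
  rw [intervalIntegral.integral_const_mul, pois_one hs] at h1
  linarith

end

section

variable {h : ℂ → ℂ} {R : ℝ}

theorem gst_eq2 (hh : Hol h 0) (hR : 1 < R) (φ : ℝ) :
    gst h R φ = (1 / Real.pi) * ∫ s in Ioi (0 : ℝ), s * JJ (FF h R) (-s) (-φ) := by
  rw [gst_eq hh hR, SS]
  congr 1
  rw [← integral_Iic_eq_integral_Iio]
  have h1 := integral_comp_neg_Ioi (0 : ℝ) (fun s => (-s) * JJ (FF h R) s (-φ))
  rw [neg_zero] at h1
  rw [← h1]
  simp only [neg_neg]

/-- a bound for the square function from bounds on circles -/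
theorem gst_le (hh : Hol h 0) (hR : 1 < R) {B : ℝ → ℝ}
    (hBi : IntegrableOn (fun s => s * B s ^ 2) (Ioi (0 : ℝ)))
    (hB : ∀ s : ℝ, 0 < s → ∀ θ : ℝ, ‖pt (R * Real.exp s) θ * deriv h (pt (R * Real.exp s) θ)‖ ≤ B s)
    (φ : ℝ) : gst h R φ ≤ 2 * ∫ s in Ioi (0 : ℝ), s * B s ^ 2 := by
  have hpi := Real.pi_pos
  rw [gst_eq2 hh hR]
  have h1 : ∫ s in Ioi (0 : ℝ), s * JJ (FF h R) (-s) (-φ) ≤
      ∫ s in Ioi (0 : ℝ), 2 * Real.pi * (s * B s ^ 2) := by
    apply integral_mono_of_nonneg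
    · filter_upwards [ae_restrict_mem measurableSet_Ioi] with s hs
      have hs' : 0 < s := hs
      exact mul_nonneg hs'.le (JJ_nonneg (by linarith) _)
    · exact hBi.const_mul _
    · filter_upwards [ae_restrict_mem measurableSet_Ioi] with s hs
      have hs' : 0 < s := hs
      have h2 : JJ (FF h R) (-s) (-φ) ≤ 2 * Real.pi * B s ^ 2 := by
        apply JJ_bound' hR (FF_diff hh hR) (by linarith)
        intro θ
        have h3 := DD_ext hh hR hs' (-θ)
        rw [neg_neg] at h3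
        rw [h3]
        exact pow_le_pow_left₀ (norm_nonneg _) (hB s hs' (-θ)) 2
      have h4 := mul_le_mul_of_nonneg_left h2 hs'.le
      linarith
  rw [integral_const_mul] at h1
  have h2 := mul_le_mul_of_nonneg_left h1 (by positivity : 0 ≤ 1 / Real.pi)
  refine h2.trans (le_of_eq ?_)
  field_simp

/-- the weight `s R² e^(2s) / (R² e^(2s) - 1)²` -/
noncomputable def wt (R s : ℝ) : ℝ :=
  s * (R * Real.exp s) ^ 2 / ((R * Real.exp s) ^ 2 - 1) ^ 2

theorem wt_pos (hR : 1 < R) {s : ℝ} (hs : 0 ≤ s) : 0 < (R * Real.exp s) ^ 2 - 1 := by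
  have h1 : 1 ≤ Real.exp s := Real.one_le_exp hs
  have h2 : 1 < R * Real.exp s := by nlinarith
  nlinarith

theorem wt_deriv (hR : 1 < R) {s : ℝ} (hs : 0 ≤ s) :
    HasDerivAt (fun s : ℝ => -(s / (2 * ((R * Real.exp s) ^ 2 - 1))) +
      1 / 4 * Real.log (1 - 1 / (R * Real.exp s) ^ 2)) (wt R s) s := by
  have hp := wt_pos hR hs
  have hR0 : 0 < R := by linarith
  have he := Real.exp_pos s
  have h1 : HasDerivAt (fun s : ℝ => (R * Real.exp s) ^ 2) (2 * (R * Real.exp s) ^ 2) s := by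
    have := ((Real.hasDerivAt_exp s).const_mul R).pow 2
    refine this.congr_deriv ?_
    ring
  have h2 : HasDerivAt (fun s : ℝ => s / (2 * ((R * Real.exp s) ^ 2 - 1)))
      ((1 * (2 * ((R * Real.exp s) ^ 2 - 1)) - s * (2 * (2 * (R * Real.exp s) ^ 2))) /
        (2 * ((R * Real.exp s) ^ 2 - 1)) ^ 2) s :=
    (hasDerivAt_id s).div ((h1.sub_const 1).const_mul 2) (by positivity)
  have hx : 0 < 1 - 1 / (R * Real.exp s) ^ 2 := by
    have : 1 - 1 / (R * Real.exp s) ^ 2 = ((R * Real.exp s) ^ 2 - 1) / (R * Real.exp s) ^ 2 := by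
      field_simp
    rw [this]
    positivity
  have h3 : HasDerivAt (fun s : ℝ => 1 / 4 * Real.log (1 - 1 / (R * Real.exp s) ^ 2))
      (1 / 4 * ((-((0 * (R * Real.exp s) ^ 2 - 1 * (2 * (R * Real.exp s) ^ 2)) /
        ((R * Real.exp s) ^ 2) ^ 2)) / (1 - 1 / (R * Real.exp s) ^ 2))) s :=
    (((((hasDerivAt_const s (1 : ℝ)).div h1 (by positivity)).const_sub 1).log hx.ne').const_mul (1 / 4))
  refine (h2.neg.add h3).congr_deriv ?_
  unfold wt
  have e : 1 - 1 / (R * Real.exp s) ^ 2 = ((R * Real.exp s) ^ 2 - 1) / (R * Real.exp s) ^ 2 := by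
    field_simp
  rw [e]
  obtain ⟨y, hy⟩ : ∃ y, y = (R * Real.exp s) ^ 2 := ⟨_, rfl⟩
  have hy0 : 0 < y := by rw [hy]; positivity
  rw [← hy] at hp ⊢
  have hp' : y - 1 ≠ 0 := hp.ne'
  field_simp
  ring

theorem wt_tendsto (hR : 1 < R) : Tendsto (fun s : ℝ => -(s / (2 * ((R * Real.exp s) ^ 2 - 1))) +
      1 / 4 * Real.log (1 - 1 / (R * Real.exp s) ^ 2)) atTop (𝓝 0) := by
  have hR0 : 0 < R := by linarith
  have he : Tendsto (fun s : ℝ => (R * Real.exp s) ^ 2) atTop atTop :=
    (tendsto_pow_atTop two_ne_zero).comp (Real.tendsto_exp_atTop.const_mul_atTop hR0)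
  have h1 : Tendsto (fun s : ℝ => 1 / (R * Real.exp s) ^ 2) atTop (𝓝 0) := by
    have := he.inv_tendsto_atTop
    refine this.congr fun s => ?_
    simp
  have h2 : Tendsto (fun s : ℝ => 1 / 4 * Real.log (1 - 1 / (R * Real.exp s) ^ 2)) atTop (𝓝 0) := by
    have h3 := ((h1.const_sub 1).log (by norm_num)).const_mul (1 / 4 : ℝ)
    simpa using h3
  have h4 : Tendsto (fun s : ℝ => s / (2 * ((R * Real.exp s) ^ 2 - 1))) atTop (𝓝 0) := by
    have h5 : Tendsto (fun s : ℝ => s * Real.exp (-s)) atTop (𝓝 0) := by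
      have := Real.tendsto_pow_mul_exp_neg_atTop_nhds_zero 1
      simpa using this
    refine squeeze_zero' ?_ ?_ h5
    · filter_upwards [eventually_ge_atTop (0 : ℝ)] with s hs
      have := wt_pos hR hs
      positivity
    · filter_upwards [eventually_ge_atTop (1 : ℝ)] with s hs
      have hs0 : 0 ≤ s := by linarith
      have hp := wt_pos hR hs0
      have hE : 2 ≤ Real.exp s := by
        have := Real.add_one_le_exp s
        linarith
      have h6 : Real.exp s ≤ 2 * ((R * Real.exp s) ^ 2 - 1) := by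
        have h7 : Real.exp s ^ 2 ≤ (R * Real.exp s) ^ 2 := by
          apply pow_le_pow_left₀ (Real.exp_pos s).le
          nlinarith [Real.exp_pos s]
        nlinarith
      rw [Real.exp_neg, ← div_eq_mul_inv]
      exact div_le_div_of_nonneg_left hs0 (Real.exp_pos s) h6
  have := h4.neg.add h2
  simpa using this

theorem wt_int (hR : 1 < R) : IntegrableOn (wt R) (Ioi (0 : ℝ)) :=
  integrableOn_Ioi_deriv_of_nonneg' (fun s hs => wt_deriv hR hs)
    (fun s hs => by
      have hs' : 0 < s := hs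
      unfold wt
      positivity) (wt_tendsto hR)

theorem wt_integral (hR : 1 < R) :
    ∫ s in Ioi (0 : ℝ), wt R s = 1 / 4 * Real.log (R ^ 2 / (R ^ 2 - 1)) := by
  have h1 := integral_Ioi_of_hasDerivAt_of_nonneg' (a := (0 : ℝ)) (fun s hs => wt_deriv hR hs)
    (fun s hs => by
      have hs' : 0 < s := hs
      unfold wt
      positivity) (wt_tendsto hR)
  rw [h1]
  have h2 : (1 : ℝ) - 1 / R ^ 2 = (R ^ 2 / (R ^ 2 - 1))⁻¹ := by
    have : R ^ 2 - 1 ≠ 0 := by nlinarith
    field_simp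
  simp only [Real.exp_zero, mul_one, zero_div, neg_zero, zero_add, h2, Real.log_inv]
  ring

/-- **the square function of a Bloch function** -/
theorem gst_bloch (hh : Hol h 0) (hR : 1 < R) {β : ℝ}
    (hB : ∀ z : ℂ, R < ‖z‖ → (‖z‖ ^ 2 - 1) * ‖deriv h z‖ ≤ β) (φ : ℝ) :
    gst h R φ ≤ β ^ 2 / 2 * Real.log (R ^ 2 / (R ^ 2 - 1)) := by
  have hR0 : 0 < R := by linarith
  have e : ∀ s : ℝ, s * (β * (R * Real.exp s) / ((R * Real.exp s) ^ 2 - 1)) ^ 2 = β ^ 2 * wt R s := by
    intro s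
    unfold wt
    rw [div_pow, mul_pow]
    ring
  have h1 := gst_le hh hR (B := fun s => β * (R * Real.exp s) / ((R * Real.exp s) ^ 2 - 1)) (by
    simp only [e]
    exact (wt_int hR).const_mul _) (fun s hs θ => by
      have hp := wt_pos hR hs.le
      have he := Real.exp_pos s
      have h1e : 1 < Real.exp s := Real.one_lt_exp_iff.2 hs
      have hn : ‖pt (R * Real.exp s) θ‖ = R * Real.exp s := norm_pt _ _ (by positivity)
      have h2 := hB (pt (R * Real.exp s) θ) (by rw [hn]; nlinarith)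
      rw [hn] at h2
      rw [norm_mul, hn, le_div_iff₀ hp]
      nlinarith [mul_pos hR0 he]) φ
  simp only [e] at h1
  rw [integral_const_mul, wt_integral hR] at h1
  linarith

end

end Pool.Agent.TH790.SF
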