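import Pool.Agent.TH790.SF.I

set_option autoImplicit false

/-! # Final assembly -/

namespace Pool.Agent.TH790.SF

open Complex Metric Set Filter Topology MeasureTheory
open Pool.Agent.W677.Mar

/-- the square function of the exterior, in polar coordinates -/
noncomputable def gs (h : ℂ → ℂ) (R φ : ℝ) : ℝ :=
  (1 / Real.pi) * ∫ r in Ioi R, Real.log (r / R) * r * ∫ θ in (0 : ℝ)..(2 * Real.pi),
    ‖deriv h (circleMap 0 r θ)‖ ^ 2 *
      ((r ^ 2 - R ^ 2) / ‖circleMap 0 r θ - circleMap 0 R φ‖ ^ 2)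

theorem image_exp {R : ℝ} (hR0 : 0 < R) : (fun s : ℝ => R * Real.exp s) '' Ioi 0 = Ioi R := by
  ext r
  constructor
  · rintro ⟨s, hs, rfl⟩
    have : 1 < Real.exp s := Real.one_lt_exp_iff.2 hs
    show R < R * Real.exp s
    nlinarith
  · intro hr
    have hr' : R < r := hr
    have hr0 : 0 < r := hR0.trans hr'
    refine ⟨Real.log (r / R), Real.log_pos ((one_lt_div hR0).2 hr'), ?_⟩
    simp only
    rw [Real.exp_log (div_pos hr0 hR0)]
    field_simp

theorem inj_exp {R : ℝ} (hR0 : 0 < R) (S : Set ℝ) : InjOn (fun s : ℝ => R * Real.exp s) S := by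
  intro x _ y _ hxy
  have h1 : Real.exp x = Real.exp y := mul_left_cancel₀ hR0.ne' hxy
  exact Real.exp_injective h1

theorem polar {R : ℝ} (hR0 : 0 < R) (k : ℝ → ℝ) :
    ∫ r in Ioi R, k r = ∫ s in Ioi (0 : ℝ), R * Real.exp s * k (R * Real.exp s) := by
  rw [← image_exp hR0, integral_image_eq_integral_abs_deriv_smul measurableSet_Ioi
    (fun x _ => ((Real.hasDerivAt_exp x).const_mul R).hasDerivWithinAt) (inj_exp hR0 _)]
  refine setIntegral_congr_fun measurableSet_Ioi fun s _ => ?_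
  simp only [smul_eq_mul]
  rw [abs_of_pos (by positivity)]

theorem polar_int {R : ℝ} (hR0 : 0 < R) (k : ℝ → ℝ) : IntegrableOn k (Ioi R) ↔
    IntegrableOn (fun s => R * Real.exp s * k (R * Real.exp s)) (Ioi (0 : ℝ)) := by
  rw [← image_exp hR0, integrableOn_image_iff_integrableOn_abs_deriv_smul measurableSet_Ioi
    (fun x _ => ((Real.hasDerivAt_exp x).const_mul R).hasDerivWithinAt) (inj_exp hR0 _)]
  apply integrableOn_congr_fun _ measurableSet_Ioi
  intro s _
  simp only [smul_eq_mul]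
  rw [abs_of_pos (by positivity)]

theorem gs_eq {R : ℝ} (hR0 : 0 < R) (h : ℂ → ℂ) (φ : ℝ) : gs h R φ = gst h R φ := by
  rw [gs, gst, polar hR0]
  congr 1
  refine setIntegral_congr_fun measurableSet_Ioi fun s _ => ?_
  have he := Real.exp_pos s
  have h1 : Real.log (R * Real.exp s / R) = s := by
    rw [mul_div_cancel_left₀ _ hR0.ne', Real.log_exp]
  rw [h1, ← intervalIntegral.integral_const_mul, ← intervalIntegral.integral_const_mul,
    ← intervalIntegral.integral_const_mul]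
  refine intervalIntegral.integral_congr fun θ _ => ?_
  rw [norm_mul, norm_circleMap_zero, abs_of_pos (by positivity : 0 < R * Real.exp s)]
  ring

section

variable {ψ h e : ℂ → ℂ} {R : ℝ}

theorem gs_nonneg (hh : Hol h 0) (hR : 1 < R) (φ : ℝ) : 0 ≤ gs h R φ := by
  rw [gs_eq (by linarith), gst_eq hh hR]
  exact SS_nonneg _ _

theorem gs_cont (hh : Hol h 0) (hR : 1 < R) : Continuous (gs h R) := by
  have h1 : gs h R = fun φ => SS (FF h R) (-φ) := by
    funext φ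
    rw [gs_eq (by linarith), gst_eq hh hR]
  have hF := FF_diff hh hR
  have hd : ContinuousOn (deriv (FF h R)) (closedBall (0 : ℂ) 1) :=
    ((hF.deriv isOpen_ball).continuousOn).mono (closedBall_subset_ball hR)
  obtain ⟨M, hM⟩ := (isCompact_closedBall (0 : ℂ) 1).exists_bound_of_continuousOn hd
  rw [h1]
  exact (SS_cont hR hF hM).comp continuous_neg

theorem h_cont (hh : Hol h 0) (hR : 1 < R) : Continuous fun φ : ℝ => h (circleMap 0 R φ) := by
  apply hh.1.continuousOn.comp_continuous (continuous_circleMap 0 R)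
  intro φ
  show 1 < ‖circleMap 0 R φ‖
  rw [norm_circleMap_zero, abs_of_pos (by linarith)]
  exact hR

theorem main1 (hh : Hol h 0) (hR : 1 < R) {b : ℝ} (hb : 0 < b) :
    ∫ φ in (0 : ℝ)..(2 * Real.pi), b / (b + gs h R φ / 2) *
      Real.exp (‖h (circleMap 0 R φ)‖ ^ 2 / (4 * b + 2 * gs h R φ)) ≤ 2 * Real.pi := by
  have h1 := ext_main hh hR hb
  refine le_trans (le_of_eq ?_) h1
  refine intervalIntegral.integral_congr fun φ _ => ?_
  have e1 : 4 * b + 2 * gst h R φ = 4 * (b + gst h R φ / 2) := by ring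
  rw [gs_eq (by linarith), e1]
  rfl

/-- the integrand of `main1` is continuous -/
theorem main1_cont (hh : Hol h 0) (hR : 1 < R) {b : ℝ} (hb : 0 < b) :
    Continuous fun φ => b / (b + gs h R φ / 2) *
      Real.exp (‖h (circleMap 0 R φ)‖ ^ 2 / (4 * b + 2 * gs h R φ)) := by
  have hg := gs_cont hh hR
  have hc := h_cont hh hR
  apply Continuous.mul
  · apply continuous_const.div (continuous_const.add (hg.div_const 2))
    intro φ
    have := gs_nonneg hh hR φ
    exact (by linarith : 0 < b + gs h R φ / 2).ne'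
  · apply Real.continuous_exp.comp
    apply (hc.norm.pow 2).div (continuous_const.add (continuous_const.mul hg))
    intro φ
    have := gs_nonneg hh hR φ
    exact (by linarith : 0 < 4 * b + 2 * gs h R φ).ne'

theorem LL_pos (hR : 1 < R) : 0 < Real.log (R ^ 2 / (R ^ 2 - 1)) := by
  have h1 : 0 < R ^ 2 - 1 := by nlinarith
  exact Real.log_pos ((one_lt_div h1).2 (by linarith))

theorem main2 (hh : Hol h 0) (hR : 1 < R) {a B : ℝ} (ha : 0 < a) (haB : a * B < 1) :
    ∫ φ in {φ ∈ Ioc (0 : ℝ) (2 * Real.pi) | gs h R φ ≤ B / 2 * Real.log (R ^ 2 / (R ^ 2 - 1))},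
      Real.exp (a * ‖h (circleMap 0 R φ)‖ ^ 2 / Real.log (R ^ 2 / (R ^ 2 - 1))) ≤
      2 * Real.pi * (1 / (1 - a * B)) := by
  have hL := LL_pos hR
  obtain ⟨L, hLd⟩ : ∃ L, L = Real.log (R ^ 2 / (R ^ 2 - 1)) := ⟨_, rfl⟩
  rw [← hLd] at hL ⊢
  obtain ⟨ε, hε⟩ : ∃ ε, ε = 1 / a - B := ⟨_, rfl⟩
  have hε0 : 0 < ε := by
    rw [hε, sub_pos, lt_div_iff₀ ha]
    linarith
  have haε : a * ε = 1 - a * B := by
    rw [hε]
    field_simp
  have hb : 0 < ε * L / 4 := by positivity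
  have h1 := main1 hh hR hb
  have hcont := main1_cont hh hR hb
  have hg := gs_cont hh hR
  have hc := h_cont hh hR
  set G : Set ℝ := {φ ∈ Ioc (0 : ℝ) (2 * Real.pi) | gs h R φ ≤ B / 2 * L} with hG
  have hGm : MeasurableSet G := by
    have : G = Ioc (0 : ℝ) (2 * Real.pi) ∩ {φ | gs h R φ ≤ B / 2 * L} := rfl
    rw [this]
    exact measurableSet_Ioc.inter (isClosed_le hg continuous_const).measurableSet
  have hGs : G ⊆ Ioc (0 : ℝ) (2 * Real.pi) := fun φ hφ => hφ.1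
  have hcE : Continuous fun φ => Real.exp (a * ‖h (circleMap 0 R φ)‖ ^ 2 / L) :=
    Real.continuous_exp.comp ((continuous_const.mul (hc.norm.pow 2)).div_const L)
  have hiE : IntegrableOn (fun φ => Real.exp (a * ‖h (circleMap 0 R φ)‖ ^ 2 / L)) G :=
    (hcE.integrableOn_Ioc).mono_set hGs
  have hiM := (hcont.integrableOn_Ioc (μ := volume) (a := (0 : ℝ)) (b := 2 * Real.pi))
  have h2 : ∫ φ in G, a * ε * Real.exp (a * ‖h (circleMap 0 R φ)‖ ^ 2 / L) ≤
      ∫ φ in G, ε * L / 4 / (ε * L / 4 + gs h R φ / 2) *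
        Real.exp (‖h (circleMap 0 R φ)‖ ^ 2 / (4 * (ε * L / 4) + 2 * gs h R φ)) := by
    apply setIntegral_mono_on (hiE.const_mul _) (hiM.mono_set hGs) hGm
    intro φ hφ
    have hg0 := gs_nonneg hh hR φ
    have hgL : gs h R φ ≤ B / 2 * L := hφ.2
    have hden : 4 * (ε * L / 4) + 2 * gs h R φ ≤ L / a := by
      have : L / a = (ε + B) * L := by
        rw [hε]
        field_simp
        ring
      rw [this]
      linarith
    have hden0 : 0 < 4 * (ε * L / 4) + 2 * gs h R φ := by positivity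
    have e1 : ε * L / 4 / (ε * L / 4 + gs h R φ / 2) =
        ε * L / (4 * (ε * L / 4) + 2 * gs h R φ) := by
      field_simp
      ring
    rw [e1]
    apply mul_le_mul _ _ (Real.exp_pos _).le (by positivity)
    · rw [le_div_iff₀ hden0]
      have := mul_le_mul_of_nonneg_left hden (by positivity : 0 ≤ a * ε)
      refine this.trans (le_of_eq ?_)
      field_simp
    · apply Real.exp_le_exp.2
      rw [div_le_div_iff₀ hL hden0]
      have h3 := mul_le_mul_of_nonneg_left hden (by positivity : 0 ≤ a * ‖h (circleMap 0 R φ)‖ ^ 2)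
      refine h3.trans (le_of_eq ?_)
      field_simp
  have h3 : ∫ φ in G, ε * L / 4 / (ε * L / 4 + gs h R φ / 2) *
        Real.exp (‖h (circleMap 0 R φ)‖ ^ 2 / (4 * (ε * L / 4) + 2 * gs h R φ)) ≤
      ∫ φ in Ioc (0 : ℝ) (2 * Real.pi), ε * L / 4 / (ε * L / 4 + gs h R φ / 2) *
        Real.exp (‖h (circleMap 0 R φ)‖ ^ 2 / (4 * (ε * L / 4) + 2 * gs h R φ)) := by
    apply setIntegral_mono_set hiM
    · refine Eventually.of_forall fun φ => ?_
      have hg0 := gs_nonneg hh hR φ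
      have := Real.exp_pos (‖h (circleMap 0 R φ)‖ ^ 2 / (4 * (ε * L / 4) + 2 * gs h R φ))
      simp only [Pi.zero_apply]
      positivity
    · exact Eventually.of_forall hGs
  rw [intervalIntegral.integral_of_le tp_pos.le] at h1
  rw [integral_const_mul, haε] at h2
  have h4 := h2.trans (h3.trans h1)
  have h5 : 0 < 1 - a * B := by linarith
  rw [mul_one_div, le_div_iff₀ h5]
  linarith

/-- the whole class: bound of the self-normalised integral if `gs ≤ B / 2 * L` everywhere -/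
theorem main3 (hh : Hol h 0) (hR : 1 < R) {ε B : ℝ} (hε : 0 < ε) (hB : 0 ≤ B)
    (hgB : ∀ φ, gs h R φ ≤ B / 2 * Real.log (R ^ 2 / (R ^ 2 - 1))) :
    ∫ φ in (0 : ℝ)..(2 * Real.pi), Real.exp (‖h (circleMap 0 R φ)‖ ^ 2 /
      (2 * gs h R φ + ε * Real.log (R ^ 2 / (R ^ 2 - 1)))) ≤ 2 * Real.pi * (1 + B / ε) := by
  have hL := LL_pos hR
  obtain ⟨L, hLd⟩ : ∃ L, L = Real.log (R ^ 2 / (R ^ 2 - 1)) := ⟨_, rfl⟩
  rw [← hLd] at hL ⊢
  rw [← hLd] at hgB
  have hb : 0 < ε * L / 4 := by positivity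
  have h1 := main1 hh hR hb
  have hcont := main1_cont hh hR hb
  have hg := gs_cont hh hR
  have hc := h_cont hh hR
  have hcE : Continuous fun φ => Real.exp (‖h (circleMap 0 R φ)‖ ^ 2 /
      (2 * gs h R φ + ε * L)) := by
    apply Real.continuous_exp.comp
    apply (hc.norm.pow 2).div ((continuous_const.mul hg).add continuous_const)
    intro φ
    have := gs_nonneg hh hR φ
    have h9 : 0 < ε * L := by positivity
    exact (by linarith : 0 < 2 * gs h R φ + ε * L).ne'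
  have h2 : ∫ φ in (0 : ℝ)..(2 * Real.pi), ε / (ε + B) * Real.exp (‖h (circleMap 0 R φ)‖ ^ 2 /
      (2 * gs h R φ + ε * L)) ≤ ∫ φ in (0 : ℝ)..(2 * Real.pi),
      ε * L / 4 / (ε * L / 4 + gs h R φ / 2) *
        Real.exp (‖h (circleMap 0 R φ)‖ ^ 2 / (4 * (ε * L / 4) + 2 * gs h R φ)) := by
    apply intervalIntegral.integral_mono_on tp_pos.le
    · exact (continuous_const.mul hcE).intervalIntegrable _ _
    · exact hcont.intervalIntegrable _ _
    · intro φ _
      have hg0 := gs_nonneg hh hR φ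
      have hgL := hgB φ
      have e2 : 2 * gs h R φ + ε * L = 4 * (ε * L / 4) + 2 * gs h R φ := by ring
      rw [e2]
      apply mul_le_mul_of_nonneg_right _ (Real.exp_pos _).le
      rw [div_le_div_iff₀ (by positivity) (by positivity)]
      nlinarith
  rw [intervalIntegral.integral_const_mul] at h2
  have h3 := h2.trans h1
  have h4 : 0 < ε / (ε + B) := by positivity
  rw [mul_comm, ← le_div_iff₀ h4] at h3
  refine h3.trans (le_of_eq ?_)
  field_simp

/-- Goluzin's inequality -/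
theorem gol (hψ : DifferentiableOn ℂ ψ {z : ℂ | 1 < ‖z‖})
    (hi : InjOn ψ {z : ℂ | 1 < ‖z‖})
    (hb : ∃ b : ℂ, Tendsto (fun z => ψ z - z) (Bornology.cobounded ℂ) (𝓝 b))
    (hh : Hol h 0)
    (he : ∀ z : ℂ, 1 < ‖z‖ → Complex.exp (h z) = deriv ψ z) {z : ℂ} (hR : 1 < R) (hz : ‖z‖ = R) :
    ‖h z‖ ≤ Real.log (R ^ 2 / (R ^ 2 - 1)) := by
  have S := toSg hψ hi hb hh.1 he hh.2
  have hR0 : 0 < R := by linarith
  have hz0 : z ≠ 0 := by
    rw [← norm_pos_iff, hz]
    exact hR0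
  have hv : z⁻¹ ∈ ball (0 : ℂ) 1 := by
    rw [mem_ball_zero_iff, norm_inv, hz]
    exact inv_lt_one_of_one_lt₀ hR
  have h1 := goluzin S hv
  rw [hat_ne _ _ (inv_ne_zero hz0), inv_inv, norm_inv, hz] at h1
  refine h1.trans (le_of_eq ?_)
  rw [← Real.log_inv]
  congr 1
  have : R ^ 2 - 1 ≠ 0 := by nlinarith
  field_simp

/-- the Bloch bound of the class -/
theorem sigma_bloch (hψ : DifferentiableOn ℂ ψ {z : ℂ | 1 < ‖z‖})
    (hi : InjOn ψ {z : ℂ | 1 < ‖z‖})
    (hb : ∃ b : ℂ, Tendsto (fun z => ψ z - z) (Bornology.cobounded ℂ) (𝓝 b))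
    (hh : Hol h 0)
    (he : ∀ z : ℂ, 1 < ‖z‖ → Complex.exp (h z) = deriv ψ z) {z : ℂ} (hz : 1 < ‖z‖) :
    (‖z‖ ^ 2 - 1) * ‖deriv h z‖ ≤ 6 := by
  have S := toSg hψ hi hb hh.1 he hh.2
  have hz0 : z ≠ 0 := by
    rw [← norm_pos_iff]
    linarith
  have hv : z⁻¹ ∈ ball (0 : ℂ) 1 := by
    rw [mem_ball_zero_iff, norm_inv]
    exact inv_lt_one_of_one_lt₀ hz
  have h1 := kbound S hv
  rw [hat_deriv hh hv (inv_ne_zero hz0), inv_inv, norm_inv] at h1
  obtain ⟨x, hx⟩ : ∃ x, x = ‖z‖ := ⟨_, rfl⟩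
  rw [← hx] at h1 hz ⊢
  have hx0 : 0 < x := by linarith
  have h2 : ‖((1 - x⁻¹ ^ 2 : ℝ) : ℂ) * (-(z * deriv h z))‖ ≤ 4 * x⁻¹ + 2 * x⁻¹ ^ 2 := by
    have h3 := norm_sub_norm_le (((1 - x⁻¹ ^ 2 : ℝ) : ℂ) * (-(z * deriv h z)))
      (2 * ((x⁻¹ : ℝ) : ℂ) ^ 2)
    have h4 : ‖2 * ((x⁻¹ : ℝ) : ℂ) ^ 2‖ = 2 * x⁻¹ ^ 2 := by
      rw [norm_mul, norm_pow, Complex.norm_real, Complex.norm_ofNat, Real.norm_of_nonneg (by positivity)]
    rw [h4] at h3
    linarith
  have hxi : 0 < 1 - x⁻¹ ^ 2 := by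
    have : x⁻¹ < 1 := inv_lt_one_of_one_lt₀ hz
    have : 0 < x⁻¹ := by positivity
    nlinarith
  rw [norm_mul, norm_neg, norm_mul, Complex.norm_real, Real.norm_of_nonneg hxi.le, ← hx] at h2
  have h5 : (x ^ 2 - 1) * ‖deriv h z‖ = x * ((1 - x⁻¹ ^ 2) * (x * ‖deriv h z‖)) := by
    field_simp
  rw [h5]
  have h6 := mul_le_mul_of_nonneg_left h2 hx0.le
  refine h6.trans ?_
  have h7 : x * (4 * x⁻¹ + 2 * x⁻¹ ^ 2) = 4 + 2 * x⁻¹ := by
    field_simp
  rw [h7]
  have : x⁻¹ < 1 := inv_lt_one_of_one_lt₀ hz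
  linarith

end

end Pool.Agent.TH790.SF
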