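import Pool.Agent.TH790.SF.J

set_option autoImplicit false

/-! # Final assembly, part two -/

namespace Pool.Agent.TH790.SF

open Complex Metric Set Filter Topology MeasureTheory
open Pool.Agent.W677.Mar

section

variable {ψ h e : ℂ → ℂ} {R : ℝ}

theorem gs_shift (e : ℂ → ℂ) (c : ℂ) (R φ : ℝ) : gs (fun z => e z - c) R φ = gs e R φ := by
  have h1 : deriv (fun z => e z - c) = deriv e := by
    funext z
    exact deriv_sub_const c
  rw [gs, gs, h1]

theorem hol_shift {c : ℂ} (he : Hol e c) : Hol (fun z => e z - c) 0 := by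
  refine ⟨he.1.sub_const c, ?_⟩
  have := he.2.sub_const c
  rwa [sub_self] at this

/-- bound of the square function from bounds of the derivative on circles -/
theorem main5 {c : ℂ} (hh : Hol h c) (hR : 1 < R) {β : ℝ → ℝ}
    (hβi : IntegrableOn (fun r => Real.log (r / R) * r * β r ^ 2 / (r ^ 2 - 1) ^ 2) (Ioi R))
    (hβ : ∀ z : ℂ, R < ‖z‖ → (‖z‖ ^ 2 - 1) * ‖deriv h z‖ ≤ β ‖z‖) (φ : ℝ) :
    gs h R φ ≤ 2 * ∫ r in Ioi R, Real.log (r / R) * r * β r ^ 2 / (r ^ 2 - 1) ^ 2 := by
  have hR0 : 0 < R := by linarith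
  have h0 := hol_shift hh
  have hd : ∀ z, deriv (fun z => h z - c) z = deriv h z := fun z => deriv_sub_const c
  rw [← gs_shift h c, gs_eq hR0]
  have e1 : ∀ s : ℝ, R * Real.exp s * (Real.log (R * Real.exp s / R) * (R * Real.exp s) *
      β (R * Real.exp s) ^ 2 / ((R * Real.exp s) ^ 2 - 1) ^ 2) =
      s * (β (R * Real.exp s) * (R * Real.exp s) / ((R * Real.exp s) ^ 2 - 1)) ^ 2 := by
    intro s
    rw [mul_div_cancel_left₀ _ hR0.ne', Real.log_exp, div_pow, mul_pow]
    ring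
  have hi := (polar_int hR0 _).1 hβi
  simp only [e1] at hi
  have h1 := gst_le h0 hR
    (B := fun s => β (R * Real.exp s) * (R * Real.exp s) / ((R * Real.exp s) ^ 2 - 1)) hi
    (fun s hs θ => by
      have hp := wt_pos hR hs.le
      have he := Real.exp_pos s
      have h1e : 1 < Real.exp s := Real.one_lt_exp_iff.2 hs
      have hn : ‖pt (R * Real.exp s) θ‖ = R * Real.exp s := norm_pt _ _ (by positivity)
      have h2 := hβ (pt (R * Real.exp s) θ) (by rw [hn]; nlinarith)
      rw [hn] at h2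
      rw [hd, norm_mul, hn, le_div_iff₀ hp]
      nlinarith [mul_pos hR0 he]) φ
  rw [polar hR0]
  simp only [e1]
  exact h1

/-- Bloch functions -/
theorem main6 {c : ℂ} (hh : Hol h c) (hR : 1 < R) {β : ℝ}
    (hβ : ∀ z : ℂ, R < ‖z‖ → (‖z‖ ^ 2 - 1) * ‖deriv h z‖ ≤ β) (φ : ℝ) :
    gs h R φ ≤ β ^ 2 / 2 * Real.log (R ^ 2 / (R ^ 2 - 1)) := by
  have h0 := hol_shift hh
  have hd : ∀ z, deriv (fun z => h z - c) z = deriv h z := fun z => deriv_sub_const c
  rw [← gs_shift h c, gs_eq (by linarith)]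
  exact gst_bloch h0 hR (fun z hz => by rw [hd]; exact hβ z hz) φ

theorem sq_split {x y δ : ℝ} (hδ : 0 < δ) :
    (x + y) ^ 2 ≤ (1 + δ) * x ^ 2 + (1 + 1 / δ) * y ^ 2 := by
  have h1 : (1 + δ) * x ^ 2 + (1 + 1 / δ) * y ^ 2 - (x + y) ^ 2 = (δ * x - y) ^ 2 / δ := by
    field_simp
    ring
  have h2 : 0 ≤ (δ * x - y) ^ 2 / δ := by positivity
  linarith

/-- **exceptional sets** -/
theorem main4 (a B A : ℝ) (ha : 0 < a) (hB : 0 ≤ B) (haB : a * B < 1) (hA : 0 ≤ A) : ∃ C : ℝ,
    ∀ (R : ℝ) (ψ h e : ℂ → ℂ) (c : ℂ), 1 < R → DifferentiableOn ℂ ψ {z : ℂ | 1 < ‖z‖} →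
      InjOn ψ {z : ℂ | 1 < ‖z‖} →
      (∃ b : ℂ, Tendsto (fun z => ψ z - z) (Bornology.cobounded ℂ) (𝓝 b)) →
      Hol h 0 → (∀ z : ℂ, 1 < ‖z‖ → Complex.exp (h z) = deriv ψ z) →
      Hol e c → ‖c‖ ≤ A → (∀ z : ℂ, ‖z‖ = R → ‖h z - e z‖ ≤ A) →
      volume {φ ∈ Ioc (0 : ℝ) (2 * Real.pi) |
        B / 2 * Real.log (R ^ 2 / (R ^ 2 - 1)) + A < gs e R φ} ≤
          ENNReal.ofReal (A * (1 - 1 / R ^ 2) ^ a) →
      ∫ φ in (0 : ℝ)..(2 * Real.pi), Real.exp (a * ‖h (circleMap 0 R φ)‖ ^ 2 /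
        Real.log (R ^ 2 / (R ^ 2 - 1))) ≤ C := by
  have hpi := Real.pi_pos
  obtain ⟨q, hq⟩ : ∃ q, q = 1 - a * B := ⟨_, rfl⟩
  have hq0 : 0 < q := by rw [hq]; linarith
  have hq1 : q ≤ 1 := by
    rw [hq]
    have := mul_nonneg ha.le hB
    linarith
  refine ⟨2 * Real.pi * (4 / q) * Real.exp ((q + 4) * A) + A +
    2 * Real.pi * Real.exp (a * (4 * a * A / q)), ?_⟩
  intro R ψ h e c hR hψ hi hb hh hexp he hc hhe hvol
  have hL := LL_pos hR
  have hgol : ∀ φ : ℝ, ‖h (circleMap 0 R φ)‖ ≤ Real.log (R ^ 2 / (R ^ 2 - 1)) := by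
    intro φ
    apply gol hψ hi hb hh hexp hR
    rw [norm_circleMap_zero, abs_of_pos (by linarith)]
  obtain ⟨L, hLd⟩ : ∃ L, L = Real.log (R ^ 2 / (R ^ 2 - 1)) := ⟨_, rfl⟩
  have hexpL : (1 - 1 / R ^ 2) ^ a = Real.exp (-(a * L)) := by
    have h1 : (1 : ℝ) - 1 / R ^ 2 = (R ^ 2 / (R ^ 2 - 1))⁻¹ := by
      have : R ^ 2 - 1 ≠ 0 := by nlinarith
      field_simp
    have h2 : 0 < R ^ 2 / (R ^ 2 - 1) := div_pos (by positivity) (by nlinarith)
    rw [h1, Real.rpow_def_of_pos (inv_pos.2 h2), Real.log_inv, ← hLd]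
    congr 1
    ring
  rw [hexpL] at hvol
  rw [← hLd] at hL hvol ⊢
  simp only [← hLd] at hgol
  have hc' := h_cont hh hR
  have hcE : Continuous fun φ => Real.exp (a * ‖h (circleMap 0 R φ)‖ ^ 2 / L) :=
    Real.continuous_exp.comp ((continuous_const.mul (hc'.norm.pow 2)).div_const L)
  -- the trivial bound
  have htriv : ∀ φ : ℝ, Real.exp (a * ‖h (circleMap 0 R φ)‖ ^ 2 / L) ≤ Real.exp (a * L) := by
    intro φ
    apply Real.exp_le_exp.2
    rw [div_le_iff₀ hL]
    have := pow_le_pow_left₀ (norm_nonneg _) (hgol φ) 2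
    nlinarith
  have hpos1 : 0 ≤ 2 * Real.pi * (4 / q) * Real.exp ((q + 4) * A) := by positivity
  have hpos2 : 0 ≤ 2 * Real.pi * Real.exp (a * (4 * a * A / q)) := by positivity
  rcases lt_or_ge L (4 * a * A / q) with hsmall | hlarge
  · have h1 : ∫ φ in (0 : ℝ)..(2 * Real.pi), Real.exp (a * ‖h (circleMap 0 R φ)‖ ^ 2 / L) ≤
        ∫ _φ in (0 : ℝ)..(2 * Real.pi), Real.exp (a * (4 * a * A / q)) := by
      apply intervalIntegral.integral_mono_on tp_pos.le
      · exact hcE.intervalIntegrable _ _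
      · exact continuous_const.intervalIntegrable _ _
      · intro φ _
        refine (htriv φ).trans (Real.exp_le_exp.2 ?_)
        exact mul_le_mul_of_nonneg_left hsmall.le ha.le
    rw [intervalIntegral.integral_const, sub_zero, smul_eq_mul] at h1
    linarith
  · -- the main case
    have h0 := hol_shift he
    obtain ⟨δ, hδ⟩ : ∃ δ, δ = q / 4 := ⟨_, rfl⟩
    have hδ0 : 0 < δ := by rw [hδ]; positivity
    obtain ⟨B', hB'⟩ : ∃ B', B' = B + 2 * A / L := ⟨_, rfl⟩
    have hLq : 4 * a * A / L ≤ q := by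
      rw [div_le_iff₀ hL]
      rw [div_le_iff₀ hq0] at hlarge
      linarith
    have haB' : a * B' ≤ 1 - q / 2 := by
      have : a * B' = a * B + 4 * a * A / L / 2 := by
        rw [hB']
        ring
      rw [this, hq]
      rw [hq] at hLq
      linarith
    have haB'' : a * (1 + δ) * B' ≤ 1 - q / 4 := by
      have h1 : a * (1 + δ) * B' = (1 + δ) * (a * B') := by ring
      rw [h1]
      have h2 := mul_le_mul_of_nonneg_left haB' (by linarith : 0 ≤ 1 + δ)
      rw [hδ] at h2 ⊢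
      nlinarith
    have hm2 := main2 h0 hR (a := a * (1 + δ)) (B := B') (by positivity) (by linarith)
    rw [← hLd] at hm2
    have hBL : B' / 2 * L = B / 2 * L + A := by
      rw [hB']
      field_simp
    simp only [gs_shift, hBL] at hm2
    have hge : Continuous (gs e R) := by
      have h1 := gs_cont h0 hR
      have h2 : gs (fun z => e z - c) R = gs e R := funext fun φ => gs_shift e c R φ
      rwa [h2] at h1
    have hGm : MeasurableSet {φ | gs e R φ ≤ B / 2 * L + A} :=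
      (isClosed_le hge continuous_const).measurableSet
    have hsplit := integral_inter_add_sdiff (μ := volume) hGm
      (hcE.integrableOn_Ioc (a := (0 : ℝ)) (b := 2 * Real.pi))
    have hce : Continuous fun φ : ℝ => e (circleMap 0 R φ) - c := h_cont h0 hR
    have hcE2 : Continuous fun φ => Real.exp (a * (1 + δ) * ‖e (circleMap 0 R φ) - c‖ ^ 2 / L) :=
      Real.continuous_exp.comp ((continuous_const.mul (hce.norm.pow 2)).div_const L)
    have hgood : ∫ φ in Ioc (0 : ℝ) (2 * Real.pi) ∩ {φ | gs e R φ ≤ B / 2 * L + A},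
        Real.exp (a * ‖h (circleMap 0 R φ)‖ ^ 2 / L) ≤
        2 * Real.pi * (4 / q) * Real.exp ((q + 4) * A) := by
      have h1 : ∫ φ in Ioc (0 : ℝ) (2 * Real.pi) ∩ {φ | gs e R φ ≤ B / 2 * L + A},
          Real.exp (a * ‖h (circleMap 0 R φ)‖ ^ 2 / L) ≤
          ∫ φ in Ioc (0 : ℝ) (2 * Real.pi) ∩ {φ | gs e R φ ≤ B / 2 * L + A},
            Real.exp ((q + 4) * A) *
              Real.exp (a * (1 + δ) * ‖e (circleMap 0 R φ) - c‖ ^ 2 / L) := by
        apply setIntegral_mono_on (hcE.integrableOn_Ioc.mono_set inter_subset_left)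
          ((hcE2.integrableOn_Ioc.mono_set inter_subset_left).const_mul _)
          (measurableSet_Ioc.inter hGm)
        intro φ _
        rw [← Real.exp_add]
        apply Real.exp_le_exp.2
        have hn : ‖circleMap 0 R φ‖ = R := by
          rw [norm_circleMap_zero, abs_of_pos (by linarith)]
        have h2 : ‖h (circleMap 0 R φ)‖ ≤ ‖e (circleMap 0 R φ) - c‖ + 2 * A := by
          have h3 : h (circleMap 0 R φ) = (e (circleMap 0 R φ) - c) +
              ((h (circleMap 0 R φ) - e (circleMap 0 R φ)) + c) := by ring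
          have h4 := norm_add_le (e (circleMap 0 R φ) - c)
              ((h (circleMap 0 R φ) - e (circleMap 0 R φ)) + c)
          rw [← h3] at h4
          have h5 := norm_add_le (h (circleMap 0 R φ) - e (circleMap 0 R φ)) c
          have h6 := hhe _ hn
          linarith
        have h7 := pow_le_pow_left₀ (norm_nonneg _) h2 2
        have h8 := sq_split (x := ‖e (circleMap 0 R φ) - c‖) (y := 2 * A) hδ0
        have h9 : a * ‖h (circleMap 0 R φ)‖ ^ 2 / L ≤
            a * ((1 + δ) * ‖e (circleMap 0 R φ) - c‖ ^ 2 + (1 + 1 / δ) * (2 * A) ^ 2) / L := by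
          apply div_le_div_of_nonneg_right _ hL.le
          exact mul_le_mul_of_nonneg_left (h7.trans h8) ha.le
        have h10 : a * ((1 + δ) * ‖e (circleMap 0 R φ) - c‖ ^ 2 + (1 + 1 / δ) * (2 * A) ^ 2) / L =
            a * (1 + δ) * ‖e (circleMap 0 R φ) - c‖ ^ 2 / L +
              (1 + 4 / q) * A * (4 * a * A / L) := by
          rw [hδ]
          field_simp
          ring
        have h11 : (1 + 4 / q) * A * (4 * a * A / L) ≤ (1 + 4 / q) * A * q :=
          mul_le_mul_of_nonneg_left hLq (by positivity)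
        have h12 : (1 + 4 / q) * A * q = (q + 4) * A := by
          field_simp
        linarith
      rw [integral_const_mul] at h1
      have h2 : 2 * Real.pi * (1 / (1 - a * (1 + δ) * B')) ≤ 2 * Real.pi * (4 / q) := by
        apply mul_le_mul_of_nonneg_left _ tp_pos.le
        rw [div_le_div_iff₀ (by linarith) hq0]
        linarith
      have h3 := mul_le_mul_of_nonneg_left (hm2.trans h2) (Real.exp_pos ((q + 4) * A)).le
      refine h1.trans (le_trans ?_ (h3.trans (le_of_eq (mul_comm _ _))))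
      exact le_of_eq rfl
    have hbad : ∫ φ in Ioc (0 : ℝ) (2 * Real.pi) \ {φ | gs e R φ ≤ B / 2 * L + A},
        Real.exp (a * ‖h (circleMap 0 R φ)‖ ^ 2 / L) ≤ A := by
      have hset : Ioc (0 : ℝ) (2 * Real.pi) \ {φ | gs e R φ ≤ B / 2 * L + A} =
          {φ ∈ Ioc (0 : ℝ) (2 * Real.pi) | B / 2 * L + A < gs e R φ} := by
        ext φ
        simp only [Set.mem_sdiff, Set.mem_ofPred_eq, not_le]
      rw [hset]
      have h1 := norm_setIntegral_le_of_norm_le_const (μ := volume) (C := Real.exp (a * L))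
        (f := fun φ => Real.exp (a * ‖h (circleMap 0 R φ)‖ ^ 2 / L))
        (lt_of_le_of_lt hvol ENNReal.ofReal_lt_top)
        (fun φ _ => by
          rw [Real.norm_of_nonneg (Real.exp_pos _).le]
          exact htriv φ)
      have h2 : volume.real {φ ∈ Ioc (0 : ℝ) (2 * Real.pi) | B / 2 * L + A < gs e R φ} ≤
          A * Real.exp (-(a * L)) :=
        ENNReal.toReal_le_of_le_ofReal (by positivity) hvol
      have h3 := mul_le_mul_of_nonneg_left h2 (Real.exp_pos (a * L)).le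
      refine (le_abs_self _).trans (h1.trans (h3.trans (le_of_eq ?_)))
      rw [Real.exp_neg]
      field_simp
    rw [intervalIntegral.integral_of_le tp_pos.le, ← hsplit]
    linarith

end

end Pool.Agent.TH790.SF
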